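import Mathlib

open NumberField

namespace Pool.Agent.TH965.St

/-- The algebraic closure of `ℚ`. -/
abbrev Qb : Type := AlgebraicClosure ℚ

/-- The absolute Galois group of `ℚ`. -/
abbrev GQ : Type := Gal(Qb/ℚ)

/-- An element of the absolute Galois group of `ℚ` is a complex conjugation if it is the complex
conjugation of some embedding of `Qb` into `ℂ`. -/
def IsCC (c : GQ) : Prop := ∃ τ : Qb →+* ℂ, ∀ x, τ (c x) = (starRingEnd ℂ) (τ x)

/-- A linear (one-dimensional, finite order) character of the absolute Galois group
`K.fixingSubgroup` of `K`. -/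
structure LinChar (K : IntermediateField ℚ Qb) where
  /-- the underlying homomorphism -/
  hom : K.fixingSubgroup →* ℂˣ
  /-- it factors through a finite quotient -/
  smooth : ∃ L : IntermediateField ℚ Qb, NumberField L ∧
    ∀ g : K.fixingSubgroup, (g : GQ) ∈ L.fixingSubgroup → hom g = 1

open Classical in
/-- The linear character as a function on the absolute Galois group of `ℚ`, extended by zero. -/
noncomputable def LinChar.fn {K : IntermediateField ℚ Qb} (ψ : LinChar K) : GQ → ℂ :=
  fun g => if h : g ∈ K.fixingSubgroup then (ψ.hom ⟨g, h⟩ : ℂ) else 0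

/-- Induction of (class) functions from `K'.fixingSubgroup` to `K.fixingSubgroup`, for functions
extended by zero to the absolute Galois group of `ℚ`. -/
noncomputable def ind (K K' : IntermediateField ℚ Qb) (f : GQ → ℂ) : GQ → ℂ :=
  fun g => ∑ᶠ q : K.fixingSubgroup ⧸ (K'.fixingSubgroup.subgroupOf K.fixingSubgroup),
    f ((q.out : GQ)⁻¹ * g * (q.out : GQ))

/-- The group of virtual Artin characters of `K`: the group generated by the characters induced
from linear characters of finite extensions of `K` (Brauer). -/
def Virt (K : IntermediateField ℚ Qb) : AddSubgroup (GQ → ℂ) :=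
  AddSubgroup.closure {f | ∃ K' : IntermediateField ℚ Qb, K ≤ K' ∧ NumberField K' ∧
    ∃ ψ : LinChar K', f = ind K K' ψ.fn}

/-- A family of elements of a commutative group `M` attached to number fields and their virtual
Artin characters, multiplicative in the character and invariant under induction of linear
characters. -/
structure Family (M : Type) [CommGroup M] where
  /-- the value at a pair (field, character) -/
  D : IntermediateField ℚ Qb → (GQ → ℂ) → M
  /-- multiplicativity -/
  map_add : ∀ (K : IntermediateField ℚ Qb), NumberField K → ∀ f ∈ Virt K, ∀ g ∈ Virt K,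
    D K (f + g) = D K f * D K g
  /-- invariance under induction -/
  map_ind : ∀ (K K' : IntermediateField ℚ Qb), NumberField K' → K ≤ K' →
    ∀ ψ : LinChar K', D K (ind K K' ψ.fn) = D K' ψ.fn

/-- `ψ(c) = e` for every complex conjugation `c` in the absolute Galois group of `K`. -/
def LinChar.HasSign {K : IntermediateField ℚ Qb} (ψ : LinChar K) (e : ℂˣ) : Prop :=
  ∀ c : K.fixingSubgroup, IsCC (c : GQ) → ψ.hom c = e

theorem isAlg_Qb : Algebra.IsAlgebraic ℚ Qb := by
  have h := @AlgebraicClosure.isAlgebraic ℚ _
  have e : (DivisionRing.toRatAlgebra : Algebra ℚ Qb) = AlgebraicClosure.instAlgebra ℚ :=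
    Subsingleton.elim _ _
  rw [e]
  exact h

instance : Algebra.IsAlgebraic ℚ Qb := isAlg_Qb

instance : IsAlgClosure ℚ Qb := ⟨inferInstance, inferInstance⟩

instance : Normal ℚ Qb := IsAlgClosure.normal ℚ Qb

theorem nf_iff (K : IntermediateField ℚ Qb) : NumberField K ↔ FiniteDimensional ℚ K :=
  ⟨fun h => h.to_finiteDimensional,
    fun h => { to_charZero := inferInstance, to_finiteDimensional := h }⟩

theorem nf_sup {K L : IntermediateField ℚ Qb} (h1 : NumberField K) (h2 : NumberField L) :
    NumberField (K ⊔ L : IntermediateField ℚ Qb) := by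
  rw [nf_iff] at *
  exact IntermediateField.finiteDimensional_sup K L

theorem nf_adjoin (y : Qb) : NumberField (IntermediateField.adjoin ℚ {y}) := by
  rw [nf_iff]
  exact IntermediateField.adjoin.finiteDimensional
        (Algebra.IsAlgebraic.isAlgebraic (R := ℚ) y).isIntegral

theorem nf_bot : NumberField (⊥ : IntermediateField ℚ Qb) := by
  rw [nf_iff]
  infer_instance

namespace LinChar

variable {K K' : IntermediateField ℚ Qb}

theorem fn_of_mem (ψ : LinChar K) {g : GQ} (h : g ∈ K.fixingSubgroup) :
    ψ.fn g = (ψ.hom ⟨g, h⟩ : ℂ) := by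
  simp only [fn, h, dite_true]

theorem fn_of_not_mem (ψ : LinChar K) {g : GQ} (h : g ∉ K.fixingSubgroup) :
    ψ.fn g = 0 := by
  simp only [fn, h, dite_false]

/-- restriction -/
noncomputable def res (ψ : LinChar K) (h : K ≤ K') : LinChar K' where
  hom := ψ.hom.comp (Subgroup.inclusion (IntermediateField.fixingSubgroup_le h))
  smooth := by
    obtain ⟨L, hL, h1⟩ := ψ.smooth
    exact ⟨L, hL, fun g hg => h1 _ hg⟩

/-- product -/
noncomputable def mul (ψ μ : LinChar K) : LinChar K where
  hom := ψ.hom * μ.hom
  smooth := by
    obtain ⟨L, hL, h1⟩ := ψ.smooth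
    obtain ⟨M, hM, h2⟩ := μ.smooth
    refine ⟨L ⊔ M, ?_, fun g hg => ?_⟩
    · exact nf_sup hL hM
    · have e1 := h1 g (IntermediateField.fixingSubgroup_le le_sup_left hg)
      have e2 := h2 g (IntermediateField.fixingSubgroup_le le_sup_right hg)
      simp [e1, e2]

/-- the trivial character -/
noncomputable def one : LinChar K where
  hom := 1
  smooth := ⟨⊥, nf_bot, fun _ _ => rfl⟩

end LinChar

end Pool.Agent.TH965.St
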