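import Pool.Agent.TH965.St.Quad

open NumberField

namespace Pool.Agent.TH965.St

/-- An open subgroup is the absolute Galois group of a number field. -/
theorem exists_field {L : IntermediateField ℚ Qb} (hL : NumberField L) (H : Subgroup GQ)
    (hH : L.fixingSubgroup ≤ H) :
    ∃ F : IntermediateField ℚ Qb, NumberField F ∧ F.fixingSubgroup = H ∧ F ≤ L := by
  have : FiniteDimensional ℚ L := (nf_iff L).1 hL
  have ho : IsOpen (H : Set GQ) :=
    Subgroup.isOpen_mono hH (IntermediateField.fixingSubgroup_isOpen L)
  have hc : IsClosed (H : Set GQ) := Subgroup.isClosed_of_isOpen H ho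
  let C : ClosedSubgroup GQ := ⟨H, hc⟩
  have h1 := InfiniteGalois.fixingSubgroup_fixedField C
  have hle : IntermediateField.fixedField H ≤ L := by
    have h2 : IntermediateField.fixedField H ≤ IntermediateField.fixedField L.fixingSubgroup := by
      rw [IntermediateField.le_iff_le]
      refine hH.trans ?_
      rw [← IntermediateField.le_iff_le]
    rwa [InfiniteGalois.fixedField_fixingSubgroup] at h2
  refine ⟨IntermediateField.fixedField H, ?_, h1, hle⟩
  rw [nf_iff]
  exact FiniteDimensional.of_injective
    (IntermediateField.inclusion hle).toLinearMap (IntermediateField.inclusion hle).injective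

theorem fixing_le_iff {K L : IntermediateField ℚ Qb} :
    K ≤ L ↔ L.fixingSubgroup ≤ K.fixingSubgroup := by
  constructor
  · exact IntermediateField.fixingSubgroup_le
  · intro h
    have := (IntermediateField.le_iff_le (F := ℚ) (E := Qb) L.fixingSubgroup K).2 h
    rwa [InfiniteGalois.fixedField_fixingSubgroup] at this

theorem finite_quot_of_open {L : IntermediateField ℚ Qb} (hL : NumberField L) (H : Subgroup GQ)
    (hH : L.fixingSubgroup ≤ H) : Finite (GQ ⧸ H) := by
  have : FiniteDimensional ℚ L := (nf_iff L).1 hL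
  have ho : IsOpen (H : Set GQ) :=
    Subgroup.isOpen_mono hH (IntermediateField.fixingSubgroup_isOpen L)
  exact Subgroup.quotient_finite_of_isOpen H ho

/-- powers of a linear character -/
noncomputable def LinChar.pow {K : IntermediateField ℚ Qb} (ψ : LinChar K) (n : ℕ) :
    LinChar K where
  hom := ψ.hom ^ n
  smooth := by
    obtain ⟨L, hL, h1⟩ := ψ.smooth
    refine ⟨L, hL, fun g hg => ?_⟩
    rw [MonoidHom.pow_apply, h1 g hg, one_pow]

theorem LinChar.finite_order {K : IntermediateField ℚ Qb} (ψ : LinChar K) :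
    ∃ n : ℕ, 0 < n ∧ ∀ g, ψ.hom g ^ n = 1 := by
  obtain ⟨L, hL, h1⟩ := ψ.smooth
  have hf := finite_quot_of_open hL L.fixingSubgroup le_rfl
  have hi : L.fixingSubgroup.index ≠ 0 := Subgroup.index_ne_zero_of_finite
  refine ⟨(L.fixingSubgroup.index).factorial, Nat.factorial_pos _, fun g => ?_⟩
  rw [← map_pow]
  apply h1
  rw [Subgroup.coe_pow]
  exact Subgroup.pow_mem_of_index_ne_zero_of_dvd hi _ fun m h0 hm => Nat.dvd_factorial h0 hm

end Pool.Agent.TH965.St
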