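import Pool.Agent.TH965.St.Short

open NumberField

namespace Pool.Agent.TH965.Stk

/-- transfer of linear characters -/
def LinChar.old {K : SubQ} (ψ : LinChar K) : St.LinChar K.toIF where
  hom := ψ.hom
  smooth := ψ.smooth

/-- transfer of linear characters -/
def LinChar.new {K : SubQ} (ψ : St.LinChar K.toIF) : LinChar K where
  hom := ψ.hom
  smooth := ψ.smooth

theorem old_new {K : SubQ} (ψ : St.LinChar K.toIF) : (LinChar.new ψ).old = ψ := rfl

theorem new_old {K : SubQ} (ψ : LinChar K) : LinChar.new ψ.old = ψ := rfl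

theorem old_fn {K : SubQ} (ψ : LinChar K) : ψ.old.fn = ψ.fn := rfl

theorem ind_old (K K' : SubQ) (f : GQ → ℂ) : St.ind K.toIF K'.toIF f = ind K K' f := rfl

theorem virt_old (K : SubQ) : St.Virt K.toIF = Virt K := by
  unfold St.Virt Virt
  congr 1
  ext f
  constructor
  · rintro ⟨K', h1, h2, ψ, h3⟩
    exact ⟨K', h1, h2, LinChar.new (K := K') ψ, h3⟩
  · rintro ⟨K', h1, h2, ψ, h3⟩
    exact ⟨K', h1, h2, ψ.old, h3⟩

/-- transfer of families -/
def Family.old {M : Type} [CommGroup M] (A : Family M) : St.Family M where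
  D := A.D
  map_add := by
    intro K hK f hf g hg
    have e := virt_old K
    have hf' : f ∈ Virt K := by rw [← e]; exact hf
    have hg' : g ∈ Virt K := by rw [← e]; exact hg
    exact A.map_add K hK f hf' g hg'
  map_ind := by
    intro K K' hK' h ψ
    exact A.map_ind K K' hK' h (LinChar.new (K := K') ψ)

theorem r2_old (K : SubQ) (hK : IsNF K) :
    r2 K = @InfinitePlace.nrComplexPlaces K.toIF _ hK := by
  have : NumberField K.toIF := hK
  classical
  unfold r2
  rw [Nat.card_eq_fintype_card]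

theorem main2 {M : Type} [CommGroup M] (A : Family M) (N : ℕ) (e : ℂˣ) (he : e = 1 ∨ e = -1) :
    (∀ K, IsNF K → ∀ f ∈ Virt K, A.D K f = 1) ↔
    (∀ K, IsNF K → N ≤ r2 K → ∀ ψ : LinChar K, ψ.HasSign e →
      (IsTC K ∨ ∃ a : ℕ, ∀ g, ψ.hom g ^ (2 ^ a) = 1) → A.D K ψ.fn = 1) := by
  have h := St.main2 A.old N e he
  constructor
  · intro H K hK hN ψ h1 h2
    rw [r2_old K hK] at hN
    have h' := h.1 (by
      intro K hK f hf
      have hf' : f ∈ Virt K := by rw [← virt_old K]; exact hf
      exact H K hK f hf')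
    exact @h' K.toIF hK hN ψ.old h1 h2
  · intro H K hK f hf
    refine (h.2 ?_) K hK f (by rw [← virt_old K] at hf; exact hf)
    intro K hK hN ψ h1 h2
    exact H K hK (by rw [r2_old K hK]; exact hN) (LinChar.new (K := K) ψ) h1 h2

theorem main3 {M : Type} [CommGroup M] (T : Subgroup M) (hT : ∀ x : M, x * x ∈ T → x ∈ T)
    (A : Family M) (N : ℕ) :
    (∀ K, IsNF K → ∀ f ∈ Virt K, A.D K f ∈ T) ↔
    (∀ K, IsNF K → N ≤ r2 K → ∀ ψ : LinChar K,
      (IsTC K ∨ ∀ g, ψ.hom g = 1) → A.D K ψ.fn ∈ T) := by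
  have h := St.main3_quot T hT A.old N
  constructor
  · intro H K hK hN ψ h1
    rw [r2_old K hK] at hN
    have h' := h.1 (by
      intro K hK f hf
      have hf' : f ∈ Virt K := by rw [← virt_old K]; exact hf
      exact H K hK f hf')
    exact @h' K.toIF hK hN ψ.old h1
  · intro H K hK f hf
    refine (h.2 ?_) K hK f (by rw [← virt_old K] at hf; exact hf)
    intro K hK hN ψ h1
    exact H K hK (by rw [r2_old K hK]; exact hN) (LinChar.new (K := K) ψ) h1

end Pool.Agent.TH965.Stk
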