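import Pool.Agent.TH965.St.Tors

open NumberField

namespace Pool.Agent.TH965.St

/-- The family of the classes modulo a subgroup. -/
def Family.quot {M : Type} [CommGroup M] (A : Family M) (T : Subgroup M) : Family (M ⧸ T) where
  D K f := QuotientGroup.mk (A.D K f)
  map_add K hK f hf g hg := by rw [A.map_add K hK f hf g hg]; rfl
  map_ind K K' hK' h ψ := by rw [A.map_ind K K' hK' h ψ]

theorem main3_quot {M : Type} [CommGroup M] (T : Subgroup M) (hT : ∀ x : M, x * x ∈ T → x ∈ T)
    (A : Family M) (N : ℕ) :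
    (∀ K : IntermediateField ℚ Qb, NumberField K → ∀ f ∈ Virt K, A.D K f ∈ T) ↔
    (∀ (K : IntermediateField ℚ Qb) [NumberField K], N ≤ InfinitePlace.nrComplexPlaces K →
      ∀ ψ : LinChar K, (IsTotallyComplex K ∨ ∀ g, ψ.hom g = 1) → A.D K ψ.fn ∈ T) := by
  have h := main3 (M := M ⧸ T) (by
    intro x
    induction x using QuotientGroup.induction_on with
    | H x =>
      intro hx
      have h1 : ((x * x : M) : M ⧸ T) = 1 := hx
      exact (QuotientGroup.eq_one_iff x).2 (hT x ((QuotientGroup.eq_one_iff _).1 h1)))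
    (A.quot T) N
  have e : ∀ (K : IntermediateField ℚ Qb) (f : GQ → ℂ), (A.quot T).D K f = 1 ↔ A.D K f ∈ T :=
    fun K f => QuotientGroup.eq_one_iff _
  simp only [e] at h
  exact h

end Pool.Agent.TH965.St
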