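import Pool.Agent.TH965.St.Kum

open NumberField

namespace Pool.Agent.TH965.St

set_option linter.unusedSectionVars false
set_option linter.unusedVariables false

variable {p : ℕ} [hp : Fact p.Prime] {ζ : Qb} {K K1 K2 : IntermediateField ℚ Qb}

theorem chi_one_iff (hζ : IsPrimitiveRoot ζ p) (g : GQ) :
    hζ.autToPow ℚ g = 1 ↔ g ζ = ζ := by
  have h := hζ.autToPow_spec ℚ g
  constructor
  · intro h1
    rw [h1] at h
    rw [← h]
    have : Fact (1 < p) := ⟨hp.1.one_lt⟩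
    rw [Units.val_one, ZMod.val_one, pow_one]
  · intro h1
    rw [h1] at h
    ext
    apply Z_inj hζ
    show ζ ^ _ = ζ ^ _
    rw [h]
    have : Fact (1 < p) := ⟨hp.1.one_lt⟩
    rw [Units.val_one, ZMod.val_one, pow_one]

/-- The image of the mod `p` cyclotomic character on the absolute Galois group of `K`. -/
noncomputable def Delta (hζ : IsPrimitiveRoot ζ p) (K : IntermediateField ℚ Qb) :
    Subgroup (ZMod p)ˣ := K.fixingSubgroup.map (hζ.autToPow ℚ)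

theorem quot_iff (hζ : IsPrimitiveRoot ζ p)
    (h2 : ∀ g ∈ K.fixingSubgroup, g ∈ K2.fixingSubgroup ↔ g ζ = ζ) (a b : K.fixingSubgroup) :
    ((a : K.fixingSubgroup ⧸ (K2.fixingSubgroup.subgroupOf K.fixingSubgroup)) = b) ↔
      hζ.autToPow ℚ (a : GQ) = hζ.autToPow ℚ (b : GQ) := by
  rw [QuotientGroup.eq, Subgroup.mem_subgroupOf, h2 _ (a⁻¹ * b).2, ← chi_one_iff hζ]
  rw [Subgroup.coe_mul, Subgroup.coe_inv, map_mul, map_inv, inv_mul_eq_one]

theorem bij (hζ : IsPrimitiveRoot ζ p)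
    (h2 : ∀ g ∈ K.fixingSubgroup, g ∈ K2.fixingSubgroup ↔ g ζ = ζ) :
    Function.Bijective (fun x : ((ZMod p)ˣ ⧸ Delta hζ K) ×
      (K.fixingSubgroup ⧸ (K2.fixingSubgroup.subgroupOf K.fixingSubgroup)) =>
        x.1.out * (hζ.autToPow ℚ (x.2.out : GQ))⁻¹) := by
  constructor
  · rintro ⟨a, q⟩ ⟨a', q'⟩ h
    simp only at h
    have ha : a = a' := by
      have h1 : ((a.out * (hζ.autToPow ℚ (q.out : GQ))⁻¹ : (ZMod p)ˣ) : (ZMod p)ˣ ⧸ Delta hζ K)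
        = ((a'.out * (hζ.autToPow ℚ (q'.out : GQ))⁻¹ : (ZMod p)ˣ) : (ZMod p)ˣ ⧸ Delta hζ K) := by
        rw [h]
      have m : ∀ q : K.fixingSubgroup ⧸ (K2.fixingSubgroup.subgroupOf K.fixingSubgroup),
          (hζ.autToPow ℚ (q.out : GQ))⁻¹ ∈ Delta hζ K := fun q =>
        (Delta hζ K).inv_mem ⟨_, q.out.2, rfl⟩
      rw [QuotientGroup.mk_mul_of_mem _ (m q), QuotientGroup.mk_mul_of_mem _ (m q')] at h1
      rwa [QuotientGroup.out_eq', QuotientGroup.out_eq'] at h1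
    subst ha
    have hq := inv_injective (mul_left_cancel h)
    rw [← quot_iff hζ h2, QuotientGroup.out_eq', QuotientGroup.out_eq'] at hq
    rw [hq]
  · intro u
    obtain ⟨⟨δ, hδ⟩, h⟩ := QuotientGroup.mk_out_eq_mul (Delta hζ K) u
    obtain ⟨q, hq, hqδ⟩ := hδ
    refine ⟨⟨QuotientGroup.mk u, QuotientGroup.mk ⟨q, hq⟩⟩, ?_⟩
    simp only
    rw [h]
    have h3 : hζ.autToPow ℚ ((Quotient.out (QuotientGroup.mk ⟨q, hq⟩ : K.fixingSubgroup ⧸
        (K2.fixingSubgroup.subgroupOf K.fixingSubgroup)) : K.fixingSubgroup) : GQ) = δ := by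
      rw [← hqδ]
      have h4 := (quot_iff hζ h2 (Quotient.out (QuotientGroup.mk ⟨q, hq⟩ : K.fixingSubgroup ⧸
        (K2.fixingSubgroup.subgroupOf K.fixingSubgroup))) ⟨q, hq⟩).1 (QuotientGroup.out_eq' _)
      exact h4
    rw [h3]
    simp

theorem finite_quot (hζ : IsPrimitiveRoot ζ p)
    (h2 : ∀ g ∈ K.fixingSubgroup, g ∈ K2.fixingSubgroup ↔ g ζ = ζ) :
    Finite (K.fixingSubgroup ⧸ (K2.fixingSubgroup.subgroupOf K.fixingSubgroup)) := by
  refine Finite.of_injective (fun q => hζ.autToPow ℚ (q.out : GQ)) ?_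
  intro q q' h
  have h' := (quot_iff hζ h2 q.out q'.out).2 h
  rwa [QuotientGroup.out_eq', QuotientGroup.out_eq'] at h'

theorem conj_ratio (hζ : IsPrimitiveRoot ζ p) {y : Qb} (hy0 : y ≠ 0)
    (hyp : ∀ g ∈ K.fixingSubgroup, g (y ^ p) = y ^ p) {g : GQ} (hg1 : hζ.autToPow ℚ g = 1)
    {t : ZMod p} (ht : g y = Z ζ t * y) (q : K.fixingSubgroup) :
    ((q : GQ)⁻¹ * g * (q : GQ)) y / y
      = Z ζ ((((hζ.autToPow ℚ (q : GQ))⁻¹ : (ZMod p)ˣ) : ZMod p) * t) := by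
  obtain ⟨j, hj⟩ := exists_t hζ hy0 (hyp _ q.2)
  rw [AlgEquiv.mul_apply, AlgEquiv.mul_apply]
  have e1 : g ((q : GQ) y) = Z ζ t * (q : GQ) y := by
    rw [hj, map_mul, fix_Z hζ ((chi_one_iff hζ g).1 hg1), ht]; ring
  rw [e1, map_mul, map_Z hζ, map_inv]
  have e2 : (q : GQ)⁻¹ ((q : GQ) y) = y := AlgEquiv.symm_apply_apply _ _
  rw [e2, mul_div_cancel_right₀ _ hy0]

open Classical in
theorem sum_ind_kum (hζ : IsPrimitiveRoot ζ p) (τ : Qb →+* ℂ) {y : Qb} (hy0 : y ≠ 0)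
    (hK : K ≤ K2)
    (hyp : ∀ g ∈ K.fixingSubgroup, g (y ^ p) = y ^ p)
    (hyp2 : ∀ g ∈ K2.fixingSubgroup, g (y ^ p) = y ^ p)
    (hK2 : ∀ g ∈ K2.fixingSubgroup, g ζ = ζ)
    (h2 : ∀ g ∈ K.fixingSubgroup, g ∈ K2.fixingSubgroup ↔ g ζ = ζ)
    {g : GQ} (hg : g ∈ K.fixingSubgroup) {t : ZMod p} (ht : g y = Z ζ t * y) :
    ∑ a : (ZMod p)ˣ ⧸ Delta hζ K,
      ind K K2 (kum hζ τ y hy0 hyp2 hK2 ((a.out : (ZMod p)ˣ) : ZMod p).val).fn g
      = if hζ.autToPow ℚ g = 1 then ∑ u : (ZMod p)ˣ, τ (Z ζ ((u : ZMod p) * t)) else 0 := by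
  have hchi : ∀ q : K.fixingSubgroup, hζ.autToPow ℚ ((q : GQ)⁻¹ * g * (q : GQ))
      = hζ.autToPow ℚ g := by
    intro q
    rw [map_mul, map_mul, map_inv, mul_comm, mul_inv_cancel_left]
  split_ifs with h1
  · have := finite_quot hζ h2
    have := Fintype.ofFinite (K.fixingSubgroup ⧸ (K2.fixingSubgroup.subgroupOf K.fixingSubgroup))
    have key : ∀ a : (ZMod p)ˣ ⧸ Delta hζ K,
        ind K K2 (kum hζ τ y hy0 hyp2 hK2 ((a.out : (ZMod p)ˣ) : ZMod p).val).fn g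
        = ∑ q : K.fixingSubgroup ⧸ (K2.fixingSubgroup.subgroupOf K.fixingSubgroup),
          τ (Z ζ (((a.out * (hζ.autToPow ℚ (q.out : GQ))⁻¹ : (ZMod p)ˣ) : ZMod p) * t)) := by
      intro a
      unfold ind
      rw [finsum_eq_sum_of_fintype]
      refine Finset.sum_congr rfl fun q _ => ?_
      have hx := (conj_mem q.out).2 hg
      rw [kum_fn]
      · rw [conj_ratio hζ hy0 hyp h1 ht q.out, ← map_pow, Z_pow hζ, ZMod.natCast_zmod_val]
        congr 2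
        rw [Units.val_mul]; ring
      · rw [h2 _ hx, ← chi_one_iff hζ, hchi]
        exact h1
    rw [Finset.sum_congr rfl fun a _ => key a]
    rw [← Fintype.sum_prod_type']
    exact Function.Bijective.sum_comp (bij hζ h2) (fun u : (ZMod p)ˣ => τ (Z ζ ((u : ZMod p) * t)))
  · refine Finset.sum_eq_zero fun a _ => ?_
    unfold ind
    rw [← finsum_zero]
    refine finsum_congr fun q => ?_
    refine LinChar.fn_of_not_mem _ fun h' => h1 ?_
    have hx := (conj_mem q.out).2 hg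
    rw [h2 _ hx, ← chi_one_iff hζ, hchi] at h'
    exact h'

open Classical in
/-- The Kummer identity: `Ind 1 = 1 + sum of induced Kummer characters`. -/
theorem kummer_identity (hζ : IsPrimitiveRoot ζ p) (τ : Qb →+* ℂ) {y : Qb} (hy0 : y ≠ 0)
    (hKK2 : K ≤ K2) (hKK1 : K ≤ K1)
    (hyp : ∀ g ∈ K.fixingSubgroup, g (y ^ p) = y ^ p)
    (hyp2 : ∀ g ∈ K2.fixingSubgroup, g (y ^ p) = y ^ p)
    (hK2 : ∀ g ∈ K2.fixingSubgroup, g ζ = ζ)
    (h2 : ∀ g ∈ K.fixingSubgroup, g ∈ K2.fixingSubgroup ↔ g ζ = ζ)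
    (h1 : ∀ g ∈ K.fixingSubgroup, g ∈ K1.fixingSubgroup ↔ g y = y)
    (htr : ∀ i : ZMod p, ∃ g ∈ K.fixingSubgroup, g y = Z ζ i * y) :
    ind K K1 (LinChar.one : LinChar K1).fn = (LinChar.one : LinChar K).fn +
      ∑ a : (ZMod p)ˣ ⧸ Delta hζ K,
        ind K K2 (kum hζ τ y hy0 hyp2 hK2 ((a.out : (ZMod p)ˣ) : ZMod p).val).fn := by
  funext g
  rw [Pi.add_apply, Finset.sum_apply]
  by_cases hg : g ∈ K.fixingSubgroup
  · obtain ⟨t, ht⟩ := exists_t hζ hy0 (hyp _ hg)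
    rw [ind_one_perm y h1 (Finset.univ.image fun i : ZMod p => Z ζ i * y) _ _ g hg]
    · rw [perm_sum hζ hy0 ht, LinChar.one_fn _ hg,
        sum_ind_kum hζ τ hy0 hKK2 hyp hyp2 hK2 h2 hg ht, sum_units_Z hζ]
      split_ifs <;> ring
    · intro g hg
      obtain ⟨t, ht⟩ := exists_t hζ hy0 (hyp _ hg)
      rw [ht]
      exact Finset.mem_image_of_mem _ (Finset.mem_univ _)
    · intro r hr
      obtain ⟨i, _, rfl⟩ := Finset.mem_image.1 hr
      exact htr i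
  · rw [ind_of_not_mem hKK1 _ hg, LinChar.fn_of_not_mem _ hg, zero_add]
    symm
    exact Finset.sum_eq_zero fun a _ => ind_of_not_mem hKK2 _ hg

end Pool.Agent.TH965.St
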