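import Pool.Agent.TH965.St.Sign

open NumberField

namespace Pool.Agent.TH965.St

theorem mem_fix_adjoin (y : Qb) (g : GQ) :
    g ∈ (IntermediateField.adjoin ℚ {y}).fixingSubgroup ↔ g y = y := by
  constructor
  · intro h
    exact (IntermediateField.mem_fixingSubgroup_iff _ _).1 h y
      (IntermediateField.mem_adjoin_simple_self ℚ y)
  · intro h
    rw [IntermediateField.mem_fixingSubgroup_iff]
    intro x hx
    induction hx using IntermediateField.adjoin_induction with
    | mem x hx =>
      rw [Set.mem_singleton_iff] at hx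
      rw [hx, h]
    | algebraMap x => exact g.commutes x
    | add x z _ _ h1 h2 => rw [map_add, h1, h2]
    | inv x _ h1 => rw [map_inv₀, h1]
    | mul x z _ _ h1 h2 => rw [map_mul, h1, h2]

theorem mem_fix_sup (K : IntermediateField ℚ Qb) (y : Qb) (g : GQ) :
    g ∈ (K ⊔ IntermediateField.adjoin ℚ {y}).fixingSubgroup ↔ g ∈ K.fixingSubgroup ∧ g y = y := by
  rw [IntermediateField.fixingSubgroup_sup, Subgroup.mem_inf, mem_fix_adjoin]

theorem r2_mono {F F' : IntermediateField ℚ Qb} [NumberField F] [NumberField F'] (h : F ≤ F') :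
    InfinitePlace.nrComplexPlaces F ≤ InfinitePlace.nrComplexPlaces F' := by
  classical
  let i : F →+* F' := (IntermediateField.inclusion h).toRingHom
  let _ : Algebra F F' := i.toAlgebra
  have : Algebra.IsAlgebraic F F' := by
    have : Algebra.IsAlgebraic ℚ F' := inferInstance
    have : IsScalarTower ℚ F F' := IsScalarTower.of_algebraMap_eq fun x => by
      simp
    exact Algebra.IsAlgebraic.tower_top (K := ℚ) F
  have hs : Function.Surjective (fun w : InfinitePlace F' => w.comap (algebraMap F F')) :=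
    InfinitePlace.comap_surjective
  choose f hf using hs
  refine Fintype.card_le_of_injective (fun w : {w : InfinitePlace F // w.IsComplex} =>
    (⟨f w.1, ?_⟩ : {w : InfinitePlace F' // w.IsComplex})) ?_
  · apply InfinitePlace.IsComplex.of_comap (algebraMap F F')
    have := hf w.1
    simp only at this
    rw [this]
    exact w.2
  · intro w w' hw
    have h1 : f w.1 = f w'.1 := congrArg Subtype.val hw
    have h2 := hf w.1
    have h3 := hf w'.1
    rw [h1] at h2
    exact Subtype.ext (h2.symm.trans h3)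

theorem no_root_two {p : ℕ} (hp : p.Prime) (b : ℚ) : b ^ p ≠ 2 := by
  intro h
  have h1 := congrArg (padicValRat 2) h
  have hb : b ≠ 0 := by
    rintro rfl
    rw [zero_pow hp.ne_zero] at h
    norm_num at h
  have : Fact (Nat.Prime 2) := ⟨Nat.prime_two⟩
  rw [padicValRat.pow] at h1
  have h2 : padicValRat 2 (2 : ℚ) = 1 := by
    have := padicValRat.self (p := 2) (by norm_num)
    exact_mod_cast this
  rw [h2] at h1
  have h3 : (p : ℤ) ∣ 1 := Dvd.intro _ h1
  have h4 := Int.eq_one_of_dvd_one (by positivity) h3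
  have := hp.one_lt
  omega

open Polynomial in
theorem minpoly_two {p : ℕ} (hp : p.Prime) {A : Type} [Field A] [Algebra ℚ A] {y : A}
    (hy : y ^ p = 2) : minpoly ℚ y = X ^ p - C (2 : ℚ) := by
  symm
  apply minpoly.eq_of_irreducible_of_monic
  · exact X_pow_sub_C_irreducible_of_prime hp (no_root_two hp)
  · simp [hy]
  · exact monic_X_pow_sub_C _ hp.ne_zero

theorem no_root_two_K {p : ℕ} (hp : p.Prime) (K : IntermediateField ℚ Qb) [hK : NumberField K]
    (h : Module.finrank ℚ K < p) (b : K) : b ^ p ≠ 2 := by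
  intro hb
  have : FiniteDimensional ℚ K := (nf_iff K).1 hK
  have h1 := minpoly.natDegree_le (A := ℚ) b
  rw [minpoly_two hp hb, Polynomial.natDegree_X_pow_sub_C] at h1
  omega

theorem trans_two {p : ℕ} [hp : Fact p.Prime] {ζ : Qb} (hζ : IsPrimitiveRoot ζ p)
    (K : IntermediateField ℚ Qb) [hK : NumberField K]
    (h : Module.finrank ℚ K < p) {y : Qb} (hy : y ^ p = 2) (i : ZMod p) :
    ∃ g ∈ K.fixingSubgroup, g y = Z ζ i * y := by
  have hirr : Irreducible (Polynomial.X ^ p - Polynomial.C (2 : K)) :=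
    X_pow_sub_C_irreducible_of_prime hp.1 (no_root_two_K hp.1 K h)
  have hm : ∀ x : Qb, x ^ p = 2 → minpoly K x = Polynomial.X ^ p - Polynomial.C (2 : K) := by
    intro x hx
    symm
    apply minpoly.eq_of_irreducible_of_monic hirr
    · rw [map_sub, map_pow, Polynomial.aeval_X, Polynomial.aeval_C, hx, map_ofNat, sub_self]
    · exact Polynomial.monic_X_pow_sub_C _ hp.1.ne_zero
  have hx : (Z ζ i * y) ^ p = 2 := by
    rw [mul_pow, hy, Z_pow hζ, CharP.cast_eq_zero, mul_zero, Z_zero, one_mul]
  have h1 : minpoly K (Z ζ i * y) = minpoly K y := by rw [hm _ hx, hm _ hy]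
  obtain ⟨σ, hσ⟩ := (Normal.minpoly_eq_iff_mem_orbit Qb).1 h1
  refine ⟨((IntermediateField.fixingSubgroupEquiv K).symm σ : K.fixingSubgroup),
    ((IntermediateField.fixingSubgroupEquiv K).symm σ).2, ?_⟩
  exact hσ

theorem r2_two {p : ℕ} (hp : p.Prime) (hp2 : p ≠ 2) {y : Qb} (hy : y ^ p = 2)
    [hF : NumberField (IntermediateField.adjoin ℚ {y})] :
    p ≤ 2 * InfinitePlace.nrComplexPlaces (IntermediateField.adjoin ℚ {y}) + 1 := by
  classical
  have hodd : Odd p := hp.odd_of_ne_two hp2
  have h1 := InfinitePlace.card_add_two_mul_card_eq_rank (IntermediateField.adjoin ℚ {y})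
  have hint : IsIntegral ℚ y := (Algebra.IsAlgebraic.isAlgebraic (R := ℚ) y).isIntegral
  have h2 : Module.finrank ℚ (IntermediateField.adjoin ℚ {y}) = p := by
    rw [IntermediateField.adjoin.finrank hint, minpoly_two hp hy,
      Polynomial.natDegree_X_pow_sub_C]
  have h3 : InfinitePlace.nrRealPlaces (IntermediateField.adjoin ℚ {y}) ≤ 1 := by
    rw [← InfinitePlace.card_real_embeddings]
    rw [Fintype.card_le_one_iff_subsingleton]
    constructor
    rintro ⟨φ, hφ⟩ ⟨φ', hφ'⟩
    apply Subtype.ext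
    simp only
    let y' : IntermediateField.adjoin ℚ {y} :=
      ⟨y, IntermediateField.mem_adjoin_simple_self ℚ y⟩
    have hy' : y' ^ p = 2 := Subtype.ext hy
    have hre : ∀ χ : (IntermediateField.adjoin ℚ {y}) →+* ℂ, ComplexEmbedding.IsReal χ →
        ∃ r : ℝ, χ y' = r ∧ r ^ p = 2 := by
      intro χ hχ
      refine ⟨(χ y').re, ?_, ?_⟩
      · exact (Complex.conj_eq_iff_re.1 (RingHom.congr_fun (ComplexEmbedding.isReal_iff.1 hχ) y')).symm
      · have e : χ y' = ((χ y').re : ℂ) :=
          (Complex.conj_eq_iff_re.1 (RingHom.congr_fun (ComplexEmbedding.isReal_iff.1 hχ) y')).symm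
        have e2 : (χ y') ^ p = 2 := by rw [← map_pow, hy', map_ofNat]
        rw [e] at e2
        exact_mod_cast e2
    obtain ⟨r, hr, hr2⟩ := hre φ hφ
    obtain ⟨r', hr', hr2'⟩ := hre φ' hφ'
    have hrr : r = r' := hodd.strictMono_pow.injective (hr2.trans hr2'.symm)
    have hyy : φ y' = φ' y' := by rw [hr, hr', hrr]
    let pb := IntermediateField.adjoin.powerBasis hint
    have hpb : pb.gen = y' := rfl
    let f : (IntermediateField.adjoin ℚ {y}) →ₐ[ℚ] ℂ := φ.toRatAlgHom
    let f' : (IntermediateField.adjoin ℚ {y}) →ₐ[ℚ] ℂ := φ'.toRatAlgHom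
    have hff : f = f' := pb.algHom_ext (by rw [hpb]; exact hyy)
    ext x
    exact AlgHom.congr_fun hff x
  have h4 : InfinitePlace.nrRealPlaces (IntermediateField.adjoin ℚ {y}) +
      2 * InfinitePlace.nrComplexPlaces (IntermediateField.adjoin ℚ {y}) = p := h1.trans h2
  omega

theorem r2_cyc {p : ℕ} (hp : p.Prime) (hp2 : p ≠ 2) {ζ : Qb} (hζ : IsPrimitiveRoot ζ p)
    [hF : NumberField (IntermediateField.adjoin ℚ {ζ})] :
    p ≤ 2 * InfinitePlace.nrComplexPlaces (IntermediateField.adjoin ℚ {ζ}) + 1 := by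
  classical
  have h1 := InfinitePlace.card_add_two_mul_card_eq_rank (IntermediateField.adjoin ℚ {ζ})
  have hint : IsIntegral ℚ ζ := (Algebra.IsAlgebraic.isAlgebraic (R := ℚ) ζ).isIntegral
  have h2 : Module.finrank ℚ (IntermediateField.adjoin ℚ {ζ}) = p - 1 := by
    rw [IntermediateField.adjoin.finrank hint,
      ← Polynomial.cyclotomic_eq_minpoly_rat hζ hp.pos, Polynomial.natDegree_cyclotomic,
      Nat.totient_prime hp]
  let ζ' : IntermediateField.adjoin ℚ {ζ} :=
      ⟨ζ, IntermediateField.mem_adjoin_simple_self ℚ ζ⟩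
  have hζ' : IsPrimitiveRoot ζ' p := by
    have : IsPrimitiveRoot ((algebraMap (IntermediateField.adjoin ℚ {ζ}) Qb) ζ') p := hζ
    exact IsPrimitiveRoot.of_map_of_injective this
      (algebraMap (IntermediateField.adjoin ℚ {ζ}) Qb).injective
  have h3 := InfinitePlace.IsPrimitiveRoot.nrRealPlaces_eq_zero_of_two_lt
    (by have := hp.two_le; omega) hζ'
  have h4 : InfinitePlace.nrRealPlaces (IntermediateField.adjoin ℚ {ζ}) +
      2 * InfinitePlace.nrComplexPlaces (IntermediateField.adjoin ℚ {ζ}) = p - 1 := h1.trans h2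
  omega

end Pool.Agent.TH965.St
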