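import Pool.Agent.TH965.St.Odd2

open NumberField

namespace Pool.Agent.TH965.St

variable {K : IntermediateField ℚ Qb}

/-- A number field whose absolute Galois group contains no complex conjugation is totally
complex. -/
theorem totallyComplex_of_no_cc (h : ∀ c ∈ K.fixingSubgroup, ¬ IsCC c) :
    IsTotallyComplex K := by
  constructor
  intro v
  by_contra hv
  rw [InfinitePlace.not_isComplex_iff_isReal] at hv
  obtain ⟨φ, hφ, hφv⟩ := hv
  let j : Qb →+* ℂ := ComplexEmbedding.lift Qb φ
  have hj : j.comp (algebraMap K Qb) = φ := ComplexEmbedding.lift_comp_algebraMap Qb φ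
  have h1 : j.comp (algebraMap K Qb) =
      (ComplexEmbedding.conjugate j).comp (algebraMap K Qb) := by
    rw [ComplexEmbedding.conjugate_comp, hj]
    exact (ComplexEmbedding.isReal_iff.1 hφ).symm
  obtain ⟨σ, hσ⟩ := ComplexEmbedding.exists_comp_symm_eq_of_comp_eq j _ h1
  let x : K.fixingSubgroup := (IntermediateField.fixingSubgroupEquiv K).symm σ.symm
  exact h x x.2 ⟨j, fun y => RingHom.congr_fun hσ y⟩

theorem Family.odd_swap {M : Type} [CommGroup M] (A : Family M) (hK : NumberField K) {K2 : IntermediateField ℚ Qb}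
    (hK2 : NumberField K2) (h : K ≤ K2) (ψ η : LinChar K)
    (H : ∀ (g : GQ) (hg : g ∈ K.fixingSubgroup), η.hom ⟨g, hg⟩ ≠ 1 →
        ind K K2 (LinChar.one : LinChar K2).fn g = 1) :
    A.D K (ψ.mul η).fn * A.D K2 (ψ.res h).fn = A.D K ψ.fn * A.D K2 ((ψ.mul η).res h).fn := by
  have e : (ψ.mul η).fn + ind K K2 (ψ.res h).fn = ψ.fn + ind K K2 ((ψ.mul η).res h).fn := by
    funext g
    rw [Pi.add_apply, Pi.add_apply, ind_res h, ind_res h, LinChar.mul_fn]
    by_cases hg : g ∈ K.fixingSubgroup
    · by_cases h1 : η.hom ⟨g, hg⟩ = 1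
      · have : η.fn g = 1 := by rw [η.fn_of_mem hg, h1]; rfl
        rw [this]; ring
      · rw [H g hg h1]; ring
    · rw [LinChar.fn_of_not_mem _ hg]; ring
  have h1 := A.map_add K hK _ (fn_mem_virt hK (ψ.mul η)) _ (ind_mem_virt h hK2 (ψ.res h))
  have h2 := A.map_add K hK _ (fn_mem_virt hK ψ) _ (ind_mem_virt h hK2 ((ψ.mul η).res h))
  rw [A.map_ind K K2 hK2 h] at h1 h2
  rw [← h1, ← h2, e]

/-- From characters of 2-power order and totally complex fields to all linear characters. -/
theorem Family.all_linear {M : Type} [CommGroup M] (A : Family M) (N : ℕ)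
    (HT : ∀ (K : IntermediateField ℚ Qb) [NumberField K],
        N ≤ InfinitePlace.nrComplexPlaces K → (∀ c ∈ K.fixingSubgroup, ¬ IsCC c) →
        ∀ ψ : LinChar K, A.D K ψ.fn = 1)
    (HP : ∀ (K : IntermediateField ℚ Qb) [NumberField K],
        N ≤ InfinitePlace.nrComplexPlaces K → ∀ ψ : LinChar K,
        (∃ a : ℕ, ∀ g, ψ.hom g ^ (2 ^ a) = 1) → A.D K ψ.fn = 1)
    (K : IntermediateField ℚ Qb) [hK : NumberField K]
    (hN : N ≤ InfinitePlace.nrComplexPlaces K) (φ : LinChar K) : A.D K φ.fn = 1 := by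
  -- removing odd parts
  have HO : ∀ m : ℕ, Odd m → ∀ (K : IntermediateField ℚ Qb) [NumberField K],
      N ≤ InfinitePlace.nrComplexPlaces K → ∀ (ψ : LinChar K) (a : ℕ),
      (∀ g, ψ.hom g ^ (2 ^ a * m) = 1) → A.D K ψ.fn = 1 := by
    intro m
    induction m using Nat.strong_induction_on with
    | _ m ih =>
      intro hm K hK hN ψ a ha
      by_cases hm1 : m = 1
      · exact HP K hN ψ ⟨a, fun g => by have := ha g; rwa [hm1, mul_one] at this⟩
      · obtain ⟨l, hl, hlm⟩ := Nat.exists_prime_and_dvd hm1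
        have hm0 : m ≠ 0 := hm.pos.ne'
        obtain ⟨k, m', hlm', hmm⟩ := Nat.exists_eq_pow_mul_and_not_dvd hm0 l hl.ne_one
        have hl2 : l ≠ 2 := by
          rintro rfl
          exact (Nat.not_even_iff_odd.2 hm) (even_iff_two_dvd.2 hlm)
        have hk0 : k ≠ 0 := by
          rintro rfl
          rw [pow_zero, one_mul] at hmm
          exact hlm' (hmm ▸ hlm)
        have hm'0 : 0 < m' := Nat.pos_of_ne_zero (by rintro rfl; exact hm0 (by rw [hmm, mul_zero]))
        have hm'm : m' < m := by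
          rw [hmm]
          have : 1 < l ^ k := Nat.one_lt_pow hk0 hl.one_lt
          nlinarith
        have hoddm' : Odd m' := by
          rw [hmm] at hm
          exact (Nat.odd_mul.1 hm).2
        have hcop : Nat.Coprime (l ^ k) (2 ^ a * m') := by
          apply Nat.Coprime.pow_left
          rw [Nat.coprime_mul_iff_right]
          refine ⟨Nat.Coprime.pow_right _ ?_, (Nat.Prime.coprime_iff_not_dvd hl).2 hlm'⟩
          exact (Nat.coprime_primes hl Nat.prime_two).2 hl2
        obtain ⟨t, ht1, ht2⟩ := Nat.chineseRemainder hcop (l ^ k - 1) 0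
        have hlk : 0 < l ^ k := pow_pos hl.pos k
        have ht1' : l ^ k ∣ t + 1 := by
          have h1 : (t + 1) ≡ (l ^ k - 1 + 1) [MOD l ^ k] := ht1.add_right 1
          rw [Nat.sub_add_cancel hlk] at h1
          exact (Nat.modEq_zero_iff_dvd).1 (h1.trans (by simp [Nat.ModEq]))
        have ht2' : 2 ^ a * m' ∣ t := (Nat.modEq_zero_iff_dvd).1 ht2
        have hη : ∀ g, (ψ.pow t).hom g ^ (l ^ k) = 1 := by
          intro g
          show (ψ.hom g ^ t) ^ (l ^ k) = 1
          obtain ⟨u, hu⟩ := ht2'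
          rw [← pow_mul]
          have : t * l ^ k = 2 ^ a * m * u := by rw [hu, hmm]; ring
          rw [this, pow_mul, ha, one_pow]
        have hψη : ∀ g, (ψ.mul (ψ.pow t)).hom g ^ (2 ^ a * m') = 1 := by
          intro g
          show (ψ.hom g * ψ.hom g ^ t) ^ (2 ^ a * m') = 1
          obtain ⟨u, hu⟩ := ht1'
          rw [← pow_succ', ← pow_mul]
          have : (t + 1) * (2 ^ a * m') = 2 ^ a * m * u := by rw [hu, hmm]; ring
          rw [this, pow_mul, ha, one_pow]
        have hD : A.D K (ψ.mul (ψ.pow t)).fn = 1 := ih m' hm'm hoddm' K hN _ a hψη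
        by_cases hne : ∃ g, (ψ.pow t).hom g ≠ 1
        · obtain ⟨K2, hK2, hKK2, hcc, hind⟩ := odd_step hK hl hl2 hη hne
          have hN2 := hN.trans (r2_mono hKK2)
          have h1 := A.odd_swap hK hK2 hKK2 ψ (ψ.pow t) hind
          rw [hD, HT K2 hN2 hcc, HT K2 hN2 hcc, mul_one, mul_one] at h1
          exact h1.symm
        · push Not at hne
          have : (ψ.mul (ψ.pow t)).fn = ψ.fn := by
            funext g
            rw [LinChar.mul_fn]
            by_cases hg : g ∈ K.fixingSubgroup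
            · rw [(ψ.pow t).fn_of_mem hg, hne, Units.val_one, mul_one]
            · rw [LinChar.fn_of_not_mem _ hg, zero_mul]
          rwa [this] at hD
  obtain ⟨n, hn, hn2⟩ := φ.finite_order
  obtain ⟨a, m, hm, hnm⟩ := Nat.exists_eq_two_pow_mul_odd hn.ne'
  exact HO m hm K hN φ a (fun g => by rw [← hnm]; exact hn2 g)

/-- From linear characters of fields with many complex places to all virtual characters. -/
theorem Family.all_virt {M : Type} [CommGroup M] (A : Family M) (N : ℕ)
    (HL : ∀ (K : IntermediateField ℚ Qb) [NumberField K],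
        N ≤ InfinitePlace.nrComplexPlaces K → ∀ ψ : LinChar K, A.D K ψ.fn = 1) :
    ∀ K : IntermediateField ℚ Qb, NumberField K → ∀ f ∈ Virt K, A.D K f = 1 := by
  have H2 : ∀ (K : IntermediateField ℚ Qb), NumberField K → ∀ ψ : LinChar K,
      A.D K ψ.fn = 1 := fun K hK ψ => A.raise N hK ψ (fun K' _ hN φ => HL K' hN φ)
  intro K hK f hf
  induction hf using AddSubgroup.closure_induction with
  | mem f hf =>
    obtain ⟨K', hKK, hK', ψ, rfl⟩ := hf
    rw [A.map_ind K K' hK' hKK ψ]
    exact H2 K' hK' ψ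
  | zero => exact A.zero hK
  | add f g hf hg h1 h2 => rw [A.map_add K hK f hf g hg, h1, h2, one_mul]
  | neg f hf h1 =>
    have h := A.map_add K hK f hf (-f) ((Virt K).neg_mem hf)
    rw [add_neg_cancel, A.zero hK, h1, one_mul] at h
    exact h.symm

theorem main2 {M : Type} [CommGroup M] (A : Family M) (N : ℕ) (e : ℂˣ) (he : e = 1 ∨ e = -1) :
    (∀ K : IntermediateField ℚ Qb, NumberField K → ∀ f ∈ Virt K, A.D K f = 1) ↔
    (∀ (K : IntermediateField ℚ Qb) [NumberField K], N ≤ InfinitePlace.nrComplexPlaces K →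
      ∀ ψ : LinChar K, ψ.HasSign e →
      (IsTotallyComplex K ∨ ∃ a : ℕ, ∀ g, ψ.hom g ^ (2 ^ a) = 1) → A.D K ψ.fn = 1) := by
  constructor
  · intro H K hK _ ψ _ _
    exact H K hK _ (fn_mem_virt hK ψ)
  · intro H
    -- totally complex fields
    have HT : ∀ (K : IntermediateField ℚ Qb) [NumberField K],
        N ≤ InfinitePlace.nrComplexPlaces K → (∀ c ∈ K.fixingSubgroup, ¬ IsCC c) →
        ∀ ψ : LinChar K, A.D K ψ.fn = 1 := by
      intro K hK hN hc ψ
      exact H K hN ψ (fun c hcc => absurd hcc (hc c c.2)) (Or.inl (totallyComplex_of_no_cc hc))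
    -- characters of 2-power order
    have HP : ∀ (K : IntermediateField ℚ Qb) [NumberField K],
        N ≤ InfinitePlace.nrComplexPlaces K → ∀ ψ : LinChar K,
        (∃ a : ℕ, ∀ g, ψ.hom g ^ (2 ^ a) = 1) → A.D K ψ.fn = 1 := by
      intro K hK hN ψ ha
      by_cases hψ : ψ.HasSign e
      · exact H K hN ψ hψ (Or.inr ha)
      · obtain ⟨s, b, hs, hne, h, ω, h1, hω, h2, h3⟩ := quad_step hK ψ e he hψ
        have hFs : NumberField (IntermediateField.adjoin ℚ {s}) := nf_adjoin s
        have hK1 : NumberField (K ⊔ IntermediateField.adjoin ℚ {s} : IntermediateField ℚ Qb) :=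
          nf_sup hK hFs
        have h4 := h3 A
        obtain ⟨a, ha⟩ := ha
        have h5 : ∀ g, (ψ.mul ω).hom g ^ (2 ^ (a + 1)) = 1 := by
          intro g
          show (ψ.hom g * ω.hom g) ^ (2 ^ (a + 1)) = 1
          rw [mul_pow, pow_succ 2 a, pow_mul, ha, one_pow, one_mul, mul_comm (2 ^ a) 2, pow_mul,
            hω, one_pow]
        rw [H K hN _ h1 (Or.inr ⟨a + 1, h5⟩), mul_one] at h4
        rw [← h4]
        refine H _ (hN.trans (r2_mono h)) _ ?_ (Or.inr ⟨a, fun g => ha _⟩)
        intro c hc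
        exact (h2 ⟨c, IntermediateField.fixingSubgroup_le h c.2⟩ hc).1 c.2
    exact A.all_virt N (fun K _ hN φ => A.all_linear N HT HP K hN φ)

end Pool.Agent.TH965.St
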