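import Mathlib

namespace Pool.Agent.TH965.St

section

variable {G : Type} [Group G] {M : Type} [CommGroup M]

theorem unique_fixed (η : G →* M) (U : Subgroup G) [hUn : U.Normal]
    (hUN : U ≤ η.ker) (hsq : ∀ n ∈ η.ker, n * n ∈ U) (hfin : Finite (G ⧸ U))
    (m : ℕ) (hm : Odd m) (hη : ∀ g, η g ^ m = 1) (g0 : G) (hgen : ∀ g, ∃ i : ℤ, η g = η g0 ^ i)
    (hfpf : ∀ a, η a ≠ 1 → ∀ n ∈ η.ker, a⁻¹ * n⁻¹ * a * n ∈ U → n ∈ U) :
    ∃ H : Subgroup G, U ≤ H ∧ (∀ g ∈ H, η g = 1 → g ∈ U) ∧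
      ∀ g, η g ≠ 1 → ∃! q : G ⧸ H, q.out⁻¹ * g * q.out ∈ H := by
  classical
  let H : Subgroup G := (Subgroup.zpowers (QuotientGroup.mk' U (g0 ^ 2))).comap (QuotientGroup.mk' U)
  have hUH : U ≤ H := by
    intro u hu
    refine Subgroup.mem_comap.2 ?_
    have : QuotientGroup.mk' U u = 1 := (QuotientGroup.eq_one_iff u).2 hu
    rw [this]
    exact Subgroup.one_mem _
  have hHN : ∀ g ∈ H, η g = 1 → g ∈ U := by
    intro g hg h1
    obtain ⟨i, hi⟩ := Subgroup.mem_zpowers_iff.1 (show QuotientGroup.mk' U g ∈ _ from hg)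
    have h2 : ((g0 ^ 2) ^ i)⁻¹ * g ∈ U := by
      rw [← QuotientGroup.eq, ← QuotientGroup.mk'_apply, ← QuotientGroup.mk'_apply, map_zpow]
      exact hi
    have h3 : (η g0) ^ (2 * i) = 1 := by
      have h4 := hUN h2
      rw [MonoidHom.mem_ker, map_mul, map_inv, h1, mul_one, inv_eq_one, map_zpow, map_pow] at h4
      rw [zpow_mul, zpow_ofNat]
      exact h4
    have h5 : ((orderOf (η g0) : ℕ) : ℤ) ∣ 2 * i := orderOf_dvd_iff_zpow_eq_one.2 h3
    have h6 : orderOf (η g0) ∣ m := orderOf_dvd_of_pow_eq_one (hη g0)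
    have h7 : Odd (orderOf (η g0)) := Odd.of_dvd_nat hm h6
    have h8 : ((orderOf (η g0) : ℕ) : ℤ) ∣ i := by
      have : IsCoprime ((orderOf (η g0) : ℕ) : ℤ) 2 := by
        rw [Int.isCoprime_iff_gcd_eq_one]
        have := Nat.Coprime.symm (Nat.coprime_two_left.2 h7)
        exact_mod_cast this
      exact this.dvd_of_dvd_mul_left h5
    obtain ⟨j, hj⟩ := h8
    have h9 : g0 ^ i ∈ η.ker := by
      rw [MonoidHom.mem_ker, map_zpow, hj, zpow_mul, zpow_natCast, pow_orderOf_eq_one, one_zpow]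
    have h10 : (g0 ^ 2) ^ i ∈ U := by
      have := hsq _ h9
      rw [← zpow_add] at this
      rw [← zpow_natCast, ← zpow_mul]
      convert this using 2
      push_cast; ring
    have := U.mul_mem h10 h2
    rwa [mul_inv_cancel_left] at this
  have hNH : ∀ x : G, ∃ n ∈ η.ker, ∃ h ∈ H, x = n * h := by
    intro x
    obtain ⟨i, hi⟩ := hgen x
    obtain ⟨t, ht⟩ := hm
    have hh : (g0 ^ 2) ^ (i * (t + 1)) ∈ H := by
      refine Subgroup.mem_comap.2 ?_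
      rw [map_zpow]
      exact Subgroup.zpow_mem _ (Subgroup.mem_zpowers _) _
    refine ⟨x * ((g0 ^ 2) ^ (i * (t + 1)))⁻¹, ?_, _, hh, by group⟩
    rw [MonoidHom.mem_ker, map_mul, map_inv, map_zpow, map_pow, hi]
    have e : (η g0 ^ 2) ^ (i * ((t : ℤ) + 1)) = η g0 ^ i := by
      have e1 : (η g0 ^ 2) ^ (i * ((t : ℤ) + 1)) = η g0 ^ ((m : ℤ) * i + i) := by
        rw [← zpow_natCast, ← zpow_mul]
        congr 1
        rw [ht]; push_cast; ring
      rw [e1, zpow_add, zpow_mul, zpow_natCast, hη, one_zpow, one_mul]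
    rw [e, mul_inv_cancel]
  have conjH : ∀ h ∈ H, ∀ y, h * y * h⁻¹ ∈ H ↔ y ∈ H := by
    intro h hh y
    constructor
    · intro h1
      have := H.mul_mem (H.mul_mem (H.inv_mem hh) h1) hh
      have e : h⁻¹ * (h * y * h⁻¹) * h = y := by group
      rwa [e] at this
    · intro h1
      exact H.mul_mem (H.mul_mem hh h1) (H.inv_mem hh)
  refine ⟨H, hUH, hHN, fun g hg => ?_⟩
  have hHcomap : ∀ x y : G, QuotientGroup.mk' U x = QuotientGroup.mk' U y → y ∈ H → x ∈ H := by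
    intro x y hxy hy
    refine Subgroup.mem_comap.2 ?_
    rw [hxy]
    exact Subgroup.mem_comap.1 hy
  have huniq : ∀ x1 x2 : G, x1⁻¹ * g * x1 ∈ H → x2⁻¹ * g * x2 ∈ H → x1⁻¹ * x2 ∈ H := by
    intro x1 x2 h1 h2
    obtain ⟨n, hn, h', hh', hx⟩ := hNH (x1⁻¹ * x2)
    have hx2 : x2 = x1 * (n * h') := by rw [← hx]; group
    have h3 : n⁻¹ * (x1⁻¹ * g * x1) * n ∈ H := by
      have e : h'⁻¹ * (n⁻¹ * (x1⁻¹ * g * x1) * n) * h'⁻¹⁻¹ = x2⁻¹ * g * x2 := by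
        rw [hx2]; group
      rw [← conjH h'⁻¹ (H.inv_mem hh'), e]
      exact h2
    have h4 : (x1⁻¹ * g * x1)⁻¹ * (n⁻¹ * (x1⁻¹ * g * x1) * n) ∈ H := H.mul_mem (H.inv_mem h1) h3
    have h5 : (x1⁻¹ * g * x1)⁻¹ * (n⁻¹ * (x1⁻¹ * g * x1) * n) ∈ U := by
      apply hHN _ h4
      rw [MonoidHom.mem_ker] at hn
      simp only [map_mul, map_inv, hn, inv_one, one_mul, mul_one, inv_mul_cancel]
    have h6 : n ∈ U := by
      refine hfpf (x1⁻¹ * g * x1) ?_ n hn ?_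
      · simp only [map_mul, map_inv]
        rw [mul_comm, mul_inv_cancel_left]
        exact hg
      · have e : (x1⁻¹ * g * x1)⁻¹ * n⁻¹ * (x1⁻¹ * g * x1) * n =
          (x1⁻¹ * g * x1)⁻¹ * (n⁻¹ * (x1⁻¹ * g * x1) * n) := by group
        rw [e]
        exact h5
    rw [hx]
    exact H.mul_mem (hUH h6) hh'
  have hexist : ∃ x : G, x⁻¹ * g * x ∈ H := by
    obtain ⟨n', hn', h', hh', hgx⟩ := hNH g
    have hηh : η h' ≠ 1 := by
      rw [hgx, map_mul, (MonoidHom.mem_ker).1 hn', one_mul] at hg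
      exact hg
    let V := (η.ker).map (QuotientGroup.mk' U)
    let hb := QuotientGroup.mk' U h'
    have hV : ∀ v ∈ V, hb * v⁻¹ * hb⁻¹ ∈ V := by
      rintro v ⟨n, hn, rfl⟩
      refine ⟨h' * n⁻¹ * h'⁻¹, ?_, by simp [hb]⟩
      exact (MonoidHom.normal_ker η).conj_mem _ (η.ker.inv_mem hn) _
    let F : V → V := fun v => ⟨v * (hb * (v : G ⧸ U)⁻¹ * hb⁻¹), V.mul_mem v.2 (hV v v.2)⟩
    have hF : Function.Injective F := by
      rintro ⟨v, hv⟩ ⟨w, hw⟩ h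
      have h1 : v * (hb * v⁻¹ * hb⁻¹) = w * (hb * w⁻¹ * hb⁻¹) := congrArg Subtype.val h
      obtain ⟨a, ha, rfl⟩ := hv
      obtain ⟨b, hb', rfl⟩ := hw
      have h2 : b⁻¹ * a ∈ U := by
        refine hfpf h' hηh _ (η.ker.mul_mem (η.ker.inv_mem hb') ha) ?_
        rw [← QuotientGroup.eq_one_iff, ← QuotientGroup.mk'_apply]
        simp only [map_mul, map_inv, mul_inv_rev, inv_inv]
        generalize QuotientGroup.mk' U a = A at h1 ⊢
        generalize QuotientGroup.mk' U b = B at h1 ⊢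
        have h3 : B⁻¹ * A = hb * (B⁻¹ * A) * hb⁻¹ := by
          calc B⁻¹ * A = B⁻¹ * (A * (hb * A⁻¹ * hb⁻¹)) * (hb * A * hb⁻¹) := by group
            _ = B⁻¹ * (B * (hb * B⁻¹ * hb⁻¹)) * (hb * A * hb⁻¹) := by rw [h1]
            _ = hb * (B⁻¹ * A) * hb⁻¹ := by group
        calc hb⁻¹ * (A⁻¹ * B) * hb * (B⁻¹ * A)
            = hb⁻¹ * (A⁻¹ * B) * hb * (hb⁻¹ * (hb * (B⁻¹ * A) * hb⁻¹) * hb) := by group
          _ = hb⁻¹ * (A⁻¹ * B) * hb * (hb⁻¹ * (B⁻¹ * A) * hb) := by rw [← h3]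
          _ = 1 := by group
      apply Subtype.ext
      show QuotientGroup.mk' U a = QuotientGroup.mk' U b
      exact (QuotientGroup.eq.2 h2).symm
    have hfV : Finite V := inferInstance
    obtain ⟨⟨v, hv⟩, hv2⟩ := (Finite.injective_iff_surjective.1 hF)
      ⟨QuotientGroup.mk' U n', ⟨n', hn', rfl⟩⟩
    obtain ⟨n, hn, rfl⟩ := hv
    have h1 : QuotientGroup.mk' U n * (hb * (QuotientGroup.mk' U n)⁻¹ * hb⁻¹) =
      QuotientGroup.mk' U n' := congrArg Subtype.val hv2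
    refine ⟨n, hHcomap _ h' ?_ hh'⟩
    rw [hgx, map_mul, map_mul, map_inv, map_mul, ← h1]
    change (QuotientGroup.mk' U n)⁻¹ * (QuotientGroup.mk' U n *
      (hb * (QuotientGroup.mk' U n)⁻¹ * hb⁻¹) * hb) * QuotientGroup.mk' U n = hb
    group
  obtain ⟨x, hx⟩ := hexist
  have hout : ∀ y : G, ∃ k ∈ H, ((y : G ⧸ H)).out = y * k := by
    intro y
    obtain ⟨⟨k, hk⟩, h⟩ := QuotientGroup.mk_out_eq_mul H y
    exact ⟨k, hk, h⟩
  refine ⟨(x : G ⧸ H), ?_, ?_⟩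
  · show ((x : G ⧸ H)).out⁻¹ * g * ((x : G ⧸ H)).out ∈ H
    obtain ⟨k, hk, hxk⟩ := hout x
    rw [hxk]
    have e : (x * k)⁻¹ * g * (x * k) = k⁻¹ * (x⁻¹ * g * x) * k⁻¹⁻¹ := by group
    rw [e, conjH _ (H.inv_mem hk)]
    exact hx
  · intro q hq
    have h1 := huniq x q.out hx hq
    have h2 := QuotientGroup.eq.2 h1
    rw [QuotientGroup.out_eq'] at h2
    exact h2.symm

end

end Pool.Agent.TH965.St
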