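import Pool.Agent.TH965.St.Defs

open NumberField

namespace Pool.Agent.TH965.St

variable {K K' : IntermediateField ℚ Qb}

theorem conj_mem {g : GQ} (q : K.fixingSubgroup) :
    ((q : GQ)⁻¹ * g * (q : GQ)) ∈ K.fixingSubgroup ↔ g ∈ K.fixingSubgroup := by
  constructor
  · intro h
    have h2 := K.fixingSubgroup.mul_mem (K.fixingSubgroup.mul_mem q.2 h)
      (K.fixingSubgroup.inv_mem q.2)
    have e : (q : GQ) * ((q : GQ)⁻¹ * g * (q : GQ)) * (q : GQ)⁻¹ = g := by group
    rwa [e] at h2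
  · intro h
    exact K.fixingSubgroup.mul_mem (K.fixingSubgroup.mul_mem (K.fixingSubgroup.inv_mem q.2) h) q.2

theorem LinChar.conj_fn (ψ : LinChar K) (g : GQ) (q : K.fixingSubgroup) :
    ψ.fn ((q : GQ)⁻¹ * g * (q : GQ)) = ψ.fn g := by
  by_cases h : g ∈ K.fixingSubgroup
  · rw [ψ.fn_of_mem h, ψ.fn_of_mem ((conj_mem q).2 h)]
    congr 1
    have e : (⟨(q : GQ)⁻¹ * g * (q : GQ), (conj_mem q).2 h⟩ : K.fixingSubgroup)
        = q⁻¹ * ⟨g, h⟩ * q := rfl
    rw [e, map_mul, map_mul, map_inv, mul_comm, mul_inv_cancel_left]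
  · rw [ψ.fn_of_not_mem h, ψ.fn_of_not_mem (fun h' => h ((conj_mem q).1 h'))]

theorem LinChar.mul_fn (ψ μ : LinChar K) (g : GQ) : (ψ.mul μ).fn g = ψ.fn g * μ.fn g := by
  by_cases h : g ∈ K.fixingSubgroup
  · rw [LinChar.fn_of_mem _ h, LinChar.fn_of_mem _ h, LinChar.fn_of_mem _ h]
    simp [LinChar.mul]
  · rw [LinChar.fn_of_not_mem _ h, LinChar.fn_of_not_mem _ h, zero_mul]

theorem LinChar.res_fn (ψ : LinChar K) (hK : K ≤ K') (g : GQ) (h : g ∈ K'.fixingSubgroup) :
    (ψ.res hK).fn g = ψ.fn g := by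
  rw [LinChar.fn_of_mem _ h, LinChar.fn_of_mem _ (IntermediateField.fixingSubgroup_le hK h)]
  rfl

theorem LinChar.one_fn (g : GQ) (h : g ∈ K.fixingSubgroup) :
    (LinChar.one : LinChar K).fn g = 1 := by
  rw [LinChar.fn_of_mem _ h]; rfl

/-- projection formula -/
theorem ind_proj (hK : K ≤ K') (ψ : LinChar K) (μ : LinChar K') (g : GQ) :
    ind K K' ((ψ.res hK).mul μ).fn g = ψ.fn g * ind K K' μ.fn g := by
  have key : ∀ q : K.fixingSubgroup, ((ψ.res hK).mul μ).fn ((q : GQ)⁻¹ * g * (q : GQ))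
      = ψ.fn g * μ.fn ((q : GQ)⁻¹ * g * (q : GQ)) := by
    intro q
    rw [LinChar.mul_fn]
    by_cases h : ((q : GQ)⁻¹ * g * (q : GQ)) ∈ K'.fixingSubgroup
    · rw [LinChar.res_fn ψ hK _ h, ψ.conj_fn]
    · rw [LinChar.fn_of_not_mem _ h, LinChar.fn_of_not_mem _ h, zero_mul, mul_zero]
  unfold ind
  rw [← smul_eq_mul, smul_finsum]
  refine finsum_congr fun q => ?_
  rw [key, smul_eq_mul]

theorem ind_res (hK : K ≤ K') (ψ : LinChar K) (g : GQ) :
    ind K K' (ψ.res hK).fn g = ψ.fn g * ind K K' (LinChar.one : LinChar K').fn g := by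
  rw [← ind_proj hK]
  congr 1
  funext x
  rw [LinChar.mul_fn]
  by_cases h : x ∈ K'.fixingSubgroup
  · rw [LinChar.one_fn _ h, mul_one]
  · rw [LinChar.fn_of_not_mem _ h, zero_mul]

theorem ind_self (ψ : LinChar K) : ind K K ψ.fn = ψ.fn := by
  funext g
  unfold ind
  have : Subsingleton (K.fixingSubgroup ⧸ (K.fixingSubgroup.subgroupOf K.fixingSubgroup)) := by
    rw [Subgroup.subgroupOf_self]
    exact QuotientGroup.subsingleton_quotient_top
  have : Unique (K.fixingSubgroup ⧸ (K.fixingSubgroup.subgroupOf K.fixingSubgroup)) :=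
    uniqueOfSubsingleton ((1 : K.fixingSubgroup))
  rw [finsum_unique]
  exact ψ.conj_fn g _

theorem ind_of_not_mem (hK : K ≤ K') (μ : LinChar K') {g : GQ} (h : g ∉ K.fixingSubgroup) :
    ind K K' μ.fn g = 0 := by
  unfold ind
  rw [← finsum_zero]
  refine finsum_congr fun q => ?_
  refine LinChar.fn_of_not_mem _ fun h' => h ?_
  exact (conj_mem (Quotient.out q)).1 (IntermediateField.fixingSubgroup_le hK h')

open Classical in
/-- the permutation character -/
theorem ind_one_perm (y : Qb) (hy : ∀ g ∈ K.fixingSubgroup, g ∈ K'.fixingSubgroup ↔ g y = y)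
    (R : Finset Qb) (hR1 : ∀ g ∈ K.fixingSubgroup, g y ∈ R)
    (hR2 : ∀ r ∈ R, ∃ g ∈ K.fixingSubgroup, g y = r) (g : GQ) (hg : g ∈ K.fixingSubgroup) :
    ind K K' (LinChar.one : LinChar K').fn g = ∑ r ∈ R, if g r = r then (1 : ℂ) else 0 := by
  unfold ind
  let Φ : (K.fixingSubgroup ⧸ (K'.fixingSubgroup.subgroupOf K.fixingSubgroup)) → R :=
    fun q => ⟨(q.out : GQ) y, hR1 _ q.out.2⟩
  have hΦ : Function.Bijective Φ := by
    constructor
    · intro q q' h
      have h1 : (q.out : GQ) y = (q'.out : GQ) y := congrArg Subtype.val h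
      have h2 : (q.out)⁻¹ * q'.out ∈ K'.fixingSubgroup.subgroupOf K.fixingSubgroup := by
        rw [Subgroup.mem_subgroupOf]
        refine (hy _ ((q.out)⁻¹ * q'.out).2).2 ?_
        simp only [Subgroup.coe_mul, Subgroup.coe_inv, AlgEquiv.mul_apply]
        rw [← h1]
        exact AlgEquiv.symm_apply_apply _ _
      have h3 := QuotientGroup.eq.2 h2
      rwa [QuotientGroup.out_eq', QuotientGroup.out_eq'] at h3
    · rintro ⟨r, hr⟩
      obtain ⟨k, hk, hkr⟩ := hR2 r hr
      let k' : K.fixingSubgroup := ⟨k, hk⟩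
      refine ⟨(QuotientGroup.mk k'), Subtype.ext ?_⟩
      obtain ⟨⟨h, hh⟩, hh2⟩ := QuotientGroup.mk_out_eq_mul
        (K'.fixingSubgroup.subgroupOf K.fixingSubgroup) k'
      show ((Quotient.out (QuotientGroup.mk k' : K.fixingSubgroup ⧸
        (K'.fixingSubgroup.subgroupOf K.fixingSubgroup)) : K.fixingSubgroup) : GQ) y = r
      rw [hh2]
      simp only [Subgroup.coe_mul, AlgEquiv.mul_apply]
      rw [(hy _ h.2).1 (Subgroup.mem_subgroupOf.1 hh)]
      exact hkr
  rw [finsum_eq_of_bijective Φ hΦ (g := fun r : R => if g (r : Qb) = r then (1 : ℂ) else 0)]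
  · rw [finsum_eq_sum_of_fintype]
    exact Finset.sum_coe_sort R (fun r => if g r = r then (1 : ℂ) else 0)
  · intro q
    have hx := (conj_mem q.out).2 hg
    have e : ((q.out : GQ)⁻¹ * g * (q.out : GQ)) y = y ↔ g ((q.out : GQ) y) = (q.out : GQ) y := by
      rw [AlgEquiv.mul_apply, AlgEquiv.mul_apply]
      constructor
      · intro h
        have h2 := congrArg (q.out : GQ) h
        rw [← h2]
        exact congrArg g h2 |>.trans (AlgEquiv.apply_symm_apply (q.out : GQ) _).symm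
      · intro h
        rw [h]
        exact AlgEquiv.symm_apply_apply _ _
    by_cases h : g ((q.out : GQ) y) = (q.out : GQ) y
    · rw [LinChar.one_fn _ ((hy _ hx).2 (e.2 h))]
      show _ = if g ((q.out : GQ) y) = (q.out : GQ) y then (1 : ℂ) else 0
      rw [if_pos h]
    · rw [LinChar.fn_of_not_mem _ (fun h' => h (e.1 ((hy _ hx).1 h')))]
      show _ = if g ((q.out : GQ) y) = (q.out : GQ) y then (1 : ℂ) else 0
      rw [if_neg h]

end Pool.Agent.TH965.St
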