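import Pool.Agent.TH965.St.Ind

open NumberField

namespace Pool.Agent.TH965.St

section Z

variable {p : ℕ} [hp : Fact p.Prime] {ζ : Qb}

/-- powers of `ζ` indexed by `ZMod p` -/
noncomputable def Z (ζ : Qb) (i : ZMod p) : Qb := ζ ^ i.val

theorem pow_eq_Z (hζ : IsPrimitiveRoot ζ p) (n : ℕ) : ζ ^ n = Z ζ (n : ZMod p) := by
  unfold Z
  rw [ZMod.val_natCast]
  conv_lhs => rw [← Nat.mod_add_div n p]
  rw [pow_add, pow_mul, hζ.pow_eq_one, one_pow, mul_one]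

theorem Z_zero : Z ζ (0 : ZMod p) = 1 := by simp [Z]

theorem Z_add (hζ : IsPrimitiveRoot ζ p) (i j : ZMod p) : Z ζ (i + j) = Z ζ i * Z ζ j := by
  have h : Z ζ i * Z ζ j = ζ ^ (i.val + j.val) := by rw [pow_add]; rfl
  rw [h, pow_eq_Z hζ]
  congr 1
  rw [Nat.cast_add, ZMod.natCast_zmod_val, ZMod.natCast_zmod_val]

theorem Z_pow (hζ : IsPrimitiveRoot ζ p) (i : ZMod p) (n : ℕ) :
    (Z ζ i) ^ n = Z ζ (i * (n : ZMod p)) := by
  have h : (Z ζ i) ^ n = ζ ^ (i.val * n) := by rw [pow_mul]; rfl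
  rw [h, pow_eq_Z hζ]
  congr 1
  rw [Nat.cast_mul, ZMod.natCast_zmod_val]

theorem Z_inj (hζ : IsPrimitiveRoot ζ p) {i j : ZMod p} (h : Z ζ i = Z ζ j) : i = j :=
  ZMod.val_injective p (hζ.pow_inj (ZMod.val_lt _) (ZMod.val_lt _) h)

theorem Z_ne_zero (hζ : IsPrimitiveRoot ζ p) (i : ZMod p) : Z ζ i ≠ 0 :=
  pow_ne_zero _ (hζ.ne_zero hp.1.ne_zero)

theorem exists_Z (hζ : IsPrimitiveRoot ζ p) {x : Qb} (hx : x ^ p = 1) : ∃ i : ZMod p, x = Z ζ i := by
  obtain ⟨n, _, hn⟩ := hζ.eq_pow_of_pow_eq_one hx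
  exact ⟨n, by rw [← hn, pow_eq_Z hζ]⟩

theorem map_Z (hζ : IsPrimitiveRoot ζ p) (g : GQ) (i : ZMod p) :
    g (Z ζ i) = Z ζ (((hζ.autToPow ℚ g : (ZMod p)ˣ) : ZMod p) * i) := by
  have h := hζ.autToPow_spec ℚ g
  have h1 : g (Z ζ i) = (g ζ) ^ i.val := map_pow _ _ _
  rw [h1, ← h]
  have h2 : ζ ^ ((hζ.autToPow ℚ g : (ZMod p)ˣ) : ZMod p).val
      = Z ζ ((hζ.autToPow ℚ g : (ZMod p)ˣ) : ZMod p) := rfl
  rw [h2, Z_pow hζ, ZMod.natCast_zmod_val]

theorem sum_Z (hζ : IsPrimitiveRoot ζ p) (τ : Qb →+* ℂ) {t : ZMod p} (ht : t ≠ 0) :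
    ∑ i : ZMod p, τ (Z ζ (i * t)) = 0 := by
  have h1 : τ (Z ζ t) * ∑ i : ZMod p, τ (Z ζ (i * t)) = ∑ i : ZMod p, τ (Z ζ (i * t)) := by
    rw [Finset.mul_sum]
    refine Fintype.sum_equiv (Equiv.addRight (1 : ZMod p)) _ _ fun i => ?_
    rw [← map_mul, ← Z_add hζ]
    congr 2
    simp; ring
  have h2 : τ (Z ζ t) ≠ 1 := by
    intro h
    rw [← map_one τ] at h
    have h3 := τ.injective h
    rw [← Z_zero (p := p) (ζ := ζ)] at h3
    exact ht (Z_inj hζ h3)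
  have h3 : (τ (Z ζ t) - 1) * ∑ i : ZMod p, τ (Z ζ (i * t)) = 0 := by
    rw [sub_mul, h1, one_mul, sub_self]
  rcases mul_eq_zero.1 h3 with h | h
  · exact absurd (sub_eq_zero.1 h) h2
  · exact h

theorem sum_units_add (F : ZMod p → ℂ) :
    (∑ u : (ZMod p)ˣ, F u) + F 0 = ∑ i : ZMod p, F i := by
  classical
  rw [Fintype.sum_eq_add_sum_compl (0 : ZMod p) F, add_comm]
  congr 1
  rw [Finset.sum_subtype (s := {(0 : ZMod p)}ᶜ) (p := fun i : ZMod p => i ≠ 0)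
    (by intro x; simp) (f := F)]
  exact Fintype.sum_equiv unitsEquivNeZero _ _ (fun u => rfl)

theorem sum_units_Z (hζ : IsPrimitiveRoot ζ p) (τ : Qb →+* ℂ) (t : ZMod p) :
    ∑ u : (ZMod p)ˣ, τ (Z ζ ((u : ZMod p) * t)) = if t = 0 then (p : ℂ) - 1 else -1 := by
  have h := sum_units_add (p := p) (fun i => τ (Z ζ (i * t)))
  simp only [zero_mul, Z_zero, map_one] at h
  split_ifs with ht
  · subst ht
    simp only [mul_zero, Z_zero, map_one, Finset.sum_const, Finset.card_univ, ZMod.card,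
      nsmul_eq_mul, mul_one] at h ⊢
    rw [← h]; ring
  · rw [sum_Z hζ τ ht] at h
    linear_combination h

end Z

section Kummer

set_option linter.unusedSectionVars false
set_option linter.unusedVariables false

variable {p : ℕ} [hp : Fact p.Prime] {ζ : Qb} {K K1 K2 : IntermediateField ℚ Qb}

theorem ratio_pow {y : Qb} (hy0 : y ≠ 0) {g : GQ} (hg : g (y ^ p) = y ^ p) :
    (g y / y) ^ p = 1 := by
  rw [div_pow, ← map_pow, hg, div_self (pow_ne_zero _ hy0)]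

theorem exists_t (hζ : IsPrimitiveRoot ζ p) {y : Qb} (hy0 : y ≠ 0) {g : GQ}
    (hg : g (y ^ p) = y ^ p) : ∃ t : ZMod p, g y = Z ζ t * y := by
  obtain ⟨t, ht⟩ := exists_Z hζ (ratio_pow hy0 hg)
  exact ⟨t, by rw [← ht, div_mul_cancel₀ _ hy0]⟩

theorem fix_Z (hζ : IsPrimitiveRoot ζ p) {g : GQ} (hg : g ζ = ζ) (i : ZMod p) :
    g (Z ζ i) = Z ζ i := by
  have h1 : g (Z ζ i) = (g ζ) ^ i.val := map_pow _ _ _
  rw [h1, hg]; rfl

/-- powers of the Kummer character of `y ^ p` -/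
noncomputable def kum (hζ : IsPrimitiveRoot ζ p) (τ : Qb →+* ℂ) (y : Qb) (hy0 : y ≠ 0)
    (hyp : ∀ g ∈ K2.fixingSubgroup, g (y ^ p) = y ^ p)
    (hK2 : ∀ g ∈ K2.fixingSubgroup, g ζ = ζ) (n : ℕ) : LinChar K2 where
  hom :=
    { toFun := fun g => Units.mk0 (τ ((g : GQ) y / y) ^ n) (by
        refine pow_ne_zero _ ?_
        rw [Ne, map_eq_zero]
        exact div_ne_zero (by rw [Ne, EmbeddingLike.map_eq_zero_iff]; exact hy0) hy0)
      map_one' := by
        ext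
        simp [div_self hy0]
      map_mul' := by
        intro g h
        ext
        simp only [Units.val_mk0, Units.val_mul, ← mul_pow, ← map_mul]
        congr 2
        obtain ⟨t, ht⟩ := exists_t hζ hy0 (hyp _ h.2)
        rw [Subgroup.coe_mul, AlgEquiv.mul_apply, ht, map_mul, fix_Z hζ (hK2 _ g.2)]
        field_simp }
  smooth := by
    refine ⟨IntermediateField.adjoin ℚ {y}, ?_, fun g hg => ?_⟩
    · exact nf_adjoin y
    · have h1 : (g : GQ) y = y :=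
        (IntermediateField.mem_fixingSubgroup_iff _ _).1 hg y
          (IntermediateField.mem_adjoin_simple_self ℚ y)
      ext
      show τ ((g : GQ) y / y) ^ n = 1
      rw [h1, div_self hy0, map_one, one_pow]

theorem kum_fn (hζ : IsPrimitiveRoot ζ p) (τ : Qb →+* ℂ) (y : Qb) (hy0 : y ≠ 0)
    (hyp : ∀ g ∈ K2.fixingSubgroup, g (y ^ p) = y ^ p)
    (hK2 : ∀ g ∈ K2.fixingSubgroup, g ζ = ζ) (n : ℕ) {g : GQ} (hg : g ∈ K2.fixingSubgroup) :
    (kum hζ τ y hy0 hyp hK2 n).fn g = τ (g y / y) ^ n := by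
  rw [LinChar.fn_of_mem _ hg]; rfl

open Classical in
theorem perm_sum (hζ : IsPrimitiveRoot ζ p) {y : Qb} (hy0 : y ≠ 0) {g : GQ} {t : ZMod p}
    (ht : g y = Z ζ t * y) :
    ∑ r ∈ (Finset.univ.image fun i : ZMod p => Z ζ i * y), (if g r = r then (1 : ℂ) else 0)
      = if hζ.autToPow ℚ g = 1 then (if t = 0 then (p : ℂ) else 0) else 1 := by
  rw [Finset.sum_image]
  swap
  · intro i _ j _ h
    exact Z_inj hζ (mul_right_cancel₀ hy0 h)
  have key : ∀ i : ZMod p, g (Z ζ i * y) = Z ζ i * y ↔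
      ((hζ.autToPow ℚ g : (ZMod p)ˣ) : ZMod p) * i + t = i := by
    intro i
    rw [map_mul, map_Z hζ, ht, ← mul_assoc, ← Z_add hζ]
    constructor
    · intro h
      exact Z_inj hζ (mul_right_cancel₀ hy0 h)
    · intro h
      rw [h]
  simp only [key]
  split_ifs with h1 h2
  · simp [h1, h2, ZMod.card]
  · simp [h1, h2]
  · have h3 : ((hζ.autToPow ℚ g : (ZMod p)ˣ) : ZMod p) - 1 ≠ 0 := by
      intro h
      apply h1
      ext
      rw [Units.val_one]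
      exact sub_eq_zero.1 h
    have h4 : ∀ i : ZMod p, (((hζ.autToPow ℚ g : (ZMod p)ˣ) : ZMod p) * i + t = i) ↔
        i = -t / (((hζ.autToPow ℚ g : (ZMod p)ˣ) : ZMod p) - 1) := by
      intro i
      rw [eq_div_iff h3]
      constructor
      · intro h
        linear_combination h
      · intro h
        linear_combination h
    simp only [h4]
    rw [Finset.sum_ite_eq' Finset.univ]
    simp

end Kummer

end Pool.Agent.TH965.St
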