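import Pool.Agent.TH965.St.Fields

open NumberField

namespace Pool.Agent.TH965.St

variable {K K1 K2 : IntermediateField ℚ Qb}

theorem ind_mem_virt (hK : K ≤ K1) (h1 : NumberField K1) (ψ : LinChar K1) :
    ind K K1 ψ.fn ∈ Virt K :=
  AddSubgroup.subset_closure ⟨K1, hK, h1, ψ, rfl⟩

theorem fn_mem_virt (hK : NumberField K) (ψ : LinChar K) : ψ.fn ∈ Virt K := by
  have := ind_mem_virt le_rfl hK ψ
  rwa [ind_self] at this

theorem Family.zero {M : Type} [CommGroup M] (A : Family M) (hK : NumberField K) : A.D K 0 = 1 := by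
  have h := A.map_add K hK 0 (Virt K).zero_mem 0 (Virt K).zero_mem
  rw [add_zero] at h
  exact (mul_eq_left.1 h.symm)

theorem Family.sum {M : Type} [CommGroup M] (A : Family M) (hK : NumberField K) {ι : Type} (s : Finset ι) (F : ι → GQ → ℂ)
    (hF : ∀ i, F i ∈ Virt K) : A.D K (∑ i ∈ s, F i) = ∏ i ∈ s, A.D K (F i) := by
  classical
  induction s using Finset.induction_on with
  | empty => rw [Finset.sum_empty, Finset.prod_empty, A.zero hK]
  | insert i s hi ih =>
    rw [Finset.sum_insert hi, Finset.prod_insert hi, A.map_add K hK _ (hF i) _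
      ((Virt K).sum_mem fun j _ => hF j), ih]

theorem Family.of_identity {M : Type} [CommGroup M] (A : Family M) (hK : NumberField K) (hK1 : NumberField K1)
    (hK2 : NumberField K2) (h1 : K ≤ K1) (h2 : K ≤ K2) {ι : Type} [Fintype ι]
    (μ : ι → LinChar K2)
    (H : ind K K1 (LinChar.one : LinChar K1).fn = (LinChar.one : LinChar K).fn +
      ∑ a, ind K K2 (μ a).fn) (ψ : LinChar K) :
    A.D K1 (ψ.res h1).fn = A.D K ψ.fn * ∏ a, A.D K2 ((ψ.res h2).mul (μ a)).fn := by
  have e : ind K K1 (ψ.res h1).fn = ψ.fn + ∑ a, ind K K2 ((ψ.res h2).mul (μ a)).fn := by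
    funext g
    rw [ind_res h1, H, Pi.add_apply, Pi.add_apply, Finset.sum_apply, Finset.sum_apply, mul_add,
      Finset.mul_sum]
    congr 1
    · by_cases hg : g ∈ K.fixingSubgroup
      · rw [LinChar.one_fn _ hg, mul_one]
      · rw [LinChar.fn_of_not_mem _ hg, zero_mul]
    · exact Finset.sum_congr rfl fun a _ => (ind_proj h2 ψ (μ a) g).symm
  rw [← A.map_ind K K1 hK1 h1, e, A.map_add K hK _ (fn_mem_virt hK ψ) _
    ((Virt K).sum_mem fun a _ => ind_mem_virt h2 hK2 _), A.sum hK _ _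
    (fun a => ind_mem_virt h2 hK2 _)]
  congr 1
  exact Finset.prod_congr rfl fun a _ => A.map_ind K K2 hK2 h2 _

/-- the step raising the number of complex places -/
theorem Family.raise {M : Type} [CommGroup M] (A : Family M) (N : ℕ) (hK : NumberField K) (ψ : LinChar K)
    (H : ∀ (K' : IntermediateField ℚ Qb) [NumberField K'],
      N ≤ InfinitePlace.nrComplexPlaces K' → ∀ φ : LinChar K', A.D K' φ.fn = 1) :
    A.D K ψ.fn = 1 := by
  classical
  obtain ⟨p, hp, hpp⟩ := Nat.exists_infinite_primes (Module.finrank ℚ K + 2 * N + 3)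
  have : Fact p.Prime := ⟨hpp⟩
  obtain ⟨ζ, hζ⟩ : ∃ ζ : Qb, IsPrimitiveRoot ζ p := by
    have : NeZero (p : Qb) := ⟨by exact_mod_cast hpp.ne_zero⟩
    exact HasEnoughRootsOfUnity.exists_primitiveRoot Qb p
  obtain ⟨y, hy⟩ : ∃ y : Qb, y ^ p = 2 := IsAlgClosed.exists_pow_nat_eq 2 hpp.pos
  have hy0 : y ≠ 0 := by
    rintro rfl
    rw [zero_pow hpp.ne_zero] at hy
    norm_num at hy
  obtain ⟨τ⟩ : Nonempty (Qb →+* ℂ) := ⟨(IsAlgClosed.lift (R := ℚ) (S := Qb) (M := ℂ)).toRingHom⟩
  have hFy : NumberField (IntermediateField.adjoin ℚ {y}) := nf_adjoin y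
  have hFz : NumberField (IntermediateField.adjoin ℚ {ζ}) := nf_adjoin ζ
  have hK1 : NumberField (K ⊔ IntermediateField.adjoin ℚ {y} : IntermediateField ℚ Qb) :=
    nf_sup hK hFy
  have hK2 : NumberField (K ⊔ IntermediateField.adjoin ℚ {ζ} : IntermediateField ℚ Qb) :=
    nf_sup hK hFz
  have hyp : ∀ g : GQ, g (y ^ p) = y ^ p := by
    intro g
    rw [hy, map_ofNat]
  have key := A.of_identity hK hK1 hK2 le_sup_left le_sup_left _
    (kummer_identity (K := K) (K1 := K ⊔ IntermediateField.adjoin ℚ {y})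
      (K2 := K ⊔ IntermediateField.adjoin ℚ {ζ}) hζ τ hy0 le_sup_left le_sup_left
      (fun g _ => hyp g) (fun g _ => hyp g)
      (fun g hg => ((mem_fix_sup K ζ g).1 hg).2)
      (fun g hg => ⟨fun h => ((mem_fix_sup K ζ g).1 h).2, fun h => (mem_fix_sup K ζ g).2 ⟨hg, h⟩⟩)
      (fun g hg => ⟨fun h => ((mem_fix_sup K y g).1 h).2, fun h => (mem_fix_sup K y g).2 ⟨hg, h⟩⟩)
      (fun i => trans_two hζ K (by omega) hy i)) ψ
  have hp2 : p ≠ 2 := by omega
  have r1 : N ≤ InfinitePlace.nrComplexPlaces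
      (K ⊔ IntermediateField.adjoin ℚ {y} : IntermediateField ℚ Qb) := by
    have a1 := r2_two hpp hp2 hy
    have a2 := r2_mono (F := IntermediateField.adjoin ℚ {y})
      (F' := K ⊔ IntermediateField.adjoin ℚ {y}) le_sup_right
    omega
  have r2 : N ≤ InfinitePlace.nrComplexPlaces
      (K ⊔ IntermediateField.adjoin ℚ {ζ} : IntermediateField ℚ Qb) := by
    have a1 := r2_cyc hpp hp2 hζ
    have a2 := r2_mono (F := IntermediateField.adjoin ℚ {ζ})
      (F' := K ⊔ IntermediateField.adjoin ℚ {ζ}) le_sup_right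
    omega
  rw [H _ r1, Finset.prod_eq_one (fun a _ => H _ r2 _), mul_one] at key
  exact key.symm

end Pool.Agent.TH965.St
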