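import Pool.Agent.TH965.St.Open
import Pool.Agent.TH965.St.Grp

open NumberField

namespace Pool.Agent.TH965.St

section

variable {K K' : IntermediateField ℚ Qb} (η : LinChar K) (z : Qb)

/-- the kernel of the action on the conjugates of `z`, inside the kernel of `η` -/
def Usub : Subgroup K.fixingSubgroup where
  carrier := {n | η.hom n = 1 ∧ ∀ x : K.fixingSubgroup, (n : GQ) ((x : GQ) z) = (x : GQ) z}
  mul_mem' := by
    rintro a b ⟨ha, ha2⟩ ⟨hb, hb2⟩
    refine ⟨by rw [map_mul, ha, hb, one_mul], fun x => ?_⟩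
    rw [Subgroup.coe_mul, AlgEquiv.mul_apply, hb2, ha2]
  one_mem' := ⟨map_one _, fun x => rfl⟩
  inv_mem' := by
    rintro a ⟨ha, ha2⟩
    refine ⟨by rw [map_inv, ha, inv_one], fun x => ?_⟩
    rw [Subgroup.coe_inv]
    conv_lhs => rw [← ha2 x]
    exact AlgEquiv.symm_apply_apply _ _

theorem mem_Usub (n : K.fixingSubgroup) : n ∈ Usub η z ↔ η.hom n = 1 ∧
    ∀ x : K.fixingSubgroup, (n : GQ) ((x : GQ) z) = (x : GQ) z := Iff.rfl

theorem Usub_normal : (Usub η z).Normal := by
  constructor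
  rintro n ⟨hn, hn2⟩ g
  refine ⟨?_, fun x => ?_⟩
  · rw [map_mul, map_mul, hn, map_inv, mul_one, mul_inv_cancel]
  · have h := hn2 (g⁻¹ * x)
    rw [Subgroup.coe_mul, Subgroup.coe_mul, AlgEquiv.mul_apply, AlgEquiv.mul_apply]
    rw [Subgroup.coe_mul, AlgEquiv.mul_apply] at h
    rw [h, ← AlgEquiv.mul_apply, ← Subgroup.coe_mul, mul_inv_cancel]
    rfl

variable {η z}

theorem inv_apply_eq (g : GQ) (x y : Qb) : g⁻¹ x = y ↔ x = g y := by
  constructor
  · intro h
    rw [← h]
    exact (AlgEquiv.apply_symm_apply g x).symm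
  · intro h
    rw [h]
    exact AlgEquiv.symm_apply_apply g y

/-- elements of the kernel act on conjugates of elements of `K'` trivially -/
theorem ker_fix (hK' : ∀ g : K.fixingSubgroup, (g : GQ) ∈ K'.fixingSubgroup ↔ η.hom g = 1)
    (n : K.fixingSubgroup) (hn : η.hom n = 1) (x : K.fixingSubgroup) (k : Qb) (hk : k ∈ K') :
    (n : GQ) ((x : GQ) k) = (x : GQ) k := by
  have h1 : η.hom (x⁻¹ * n * x) = 1 := by
    rw [map_mul, map_mul, map_inv, hn, mul_one, inv_mul_cancel]
  have h2 := (IntermediateField.mem_fixingSubgroup_iff _ _).1 ((hK' _).2 h1) k hk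
  rw [Subgroup.coe_mul, Subgroup.coe_mul, AlgEquiv.mul_apply, AlgEquiv.mul_apply] at h2
  exact (inv_apply_eq _ _ _).1 h2

theorem pm_of_sq {a b : Qb} (h : a ^ 2 = b ^ 2) : a = b ∨ a = -b := sq_eq_sq_iff_eq_or_eq_neg.1 h

theorem ker_pm (hK' : ∀ g : K.fixingSubgroup, (g : GQ) ∈ K'.fixingSubgroup ↔ η.hom g = 1)
    (n : K.fixingSubgroup) (hn : η.hom n = 1) (x : K.fixingSubgroup) {s : Qb} (hs : s ^ 2 ∈ K') :
    (n : GQ) ((x : GQ) s) = (x : GQ) s ∨ (n : GQ) ((x : GQ) s) = - (x : GQ) s := by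
  apply pm_of_sq
  have := ker_fix hK' n hn x _ hs
  rw [map_pow, map_pow] at this
  exact this

theorem fpf (hK' : ∀ g : K.fixingSubgroup, (g : GQ) ∈ K'.fixingSubgroup ↔ η.hom g = 1)
    {s : Qb} (hs0 : s ≠ 0) (hs : s ^ 2 ∈ K') (τ : K.fixingSubgroup) (l : ℕ) (hl : Odd l)
    (hτ : η.hom τ ^ l = 1) (a : K.fixingSubgroup) (r : ℕ) (har : η.hom a ^ r = η.hom τ)
    (n : K.fixingSubgroup) (hn : η.hom n = 1)
    (hU : a⁻¹ * n⁻¹ * a * n ∈ Usub η (s * (τ : GQ) s)) : n ∈ Usub η (s * (τ : GQ) s) := by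
  obtain ⟨z, hz⟩ : ∃ z, z = s * (τ : GQ) s := ⟨_, rfl⟩
  rw [← hz] at hU ⊢
  have hzx : ∀ x : K.fixingSubgroup, (x : GQ) z = (x : GQ) s * ((x * τ : K.fixingSubgroup) : GQ) s := by
    intro x
    rw [hz, map_mul]; rfl
  have hne : ∀ (x : K.fixingSubgroup), (x : GQ) s ≠ 0 := fun x h => hs0
    ((EmbeddingLike.map_eq_zero_iff).1 h)
  have hzne : ∀ (x : K.fixingSubgroup), (x : GQ) z ≠ 0 := fun x => by
    rw [hzx]; exact mul_ne_zero (hne _) (hne _)
  have hpm : ∀ m : K.fixingSubgroup, η.hom m = 1 → ∀ x : K.fixingSubgroup,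
      (m : GQ) ((x : GQ) z) = (x : GQ) z ∨ (m : GQ) ((x : GQ) z) = - (x : GQ) z := by
    intro m hm x
    rw [hzx, map_mul]
    rcases ker_pm hK' m hm x hs with h1 | h1 <;> rcases ker_pm hK' m hm (x * τ) hs with h2 | h2 <;>
    rw [h1, h2]
    · left; rfl
    · right; ring
    · right; ring
    · left; ring
  let ε : K.fixingSubgroup → Qb := fun x => (n : GQ) ((x : GQ) z) / (x : GQ) z
  have hε : ∀ x, ε x = 1 ∨ ε x = -1 := by
    intro x
    rcases hpm n hn x with h | h
    · left; show _ / _ = _; rw [h, div_self (hzne x)]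
    · right; show _ / _ = _; rw [h, neg_div, div_self (hzne x)]
  have hεg : ∀ x (g : GQ), g (ε x) = ε x := by
    intro x g
    rcases hε x with h | h
    · rw [h, map_one]
    · rw [h, map_neg, map_one]
  have h1 : ∀ x, ε (a * x) = ε x := by
    intro x
    have h := hU.2 x
    have h2 : (a : GQ) ((n : GQ) ((x : GQ) z)) = (n : GQ) ((a : GQ) ((x : GQ) z)) := by
      have e : ((a⁻¹ * n⁻¹ * a * n : K.fixingSubgroup) : GQ) ((x : GQ) z) =
        (a : GQ)⁻¹ ((n : GQ)⁻¹ ((a : GQ) ((n : GQ) ((x : GQ) z)))) := rfl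
      rw [e, inv_apply_eq, inv_apply_eq] at h
      exact h
    have h3 : ε (a * x) = (a : GQ) (ε x) := by
      show (n : GQ) ((a : GQ) ((x : GQ) z)) / (a : GQ) ((x : GQ) z) =
        (a : GQ) ((n : GQ) ((x : GQ) z) / (x : GQ) z)
      rw [← h2, map_div₀]
    rw [h3, hεg]
  have h2 : ∀ (i : ℕ) x, ε (a ^ i * x) = ε x := by
    intro i
    induction i with
    | zero => intro x; rw [pow_zero, one_mul]
    | succ i ih => intro x; rw [pow_succ, mul_assoc, ih, h1]
  have h3 : ∀ x, ε (x * τ) = ε x := by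
    intro x
    obtain ⟨n2, hn2⟩ : ∃ n2, n2 = τ⁻¹ * x⁻¹ * a ^ r * x := ⟨_, rfl⟩
    have e : a ^ r * x = x * τ * n2 := by rw [hn2]; group
    have hηn2 : η.hom n2 = 1 := by
      rw [hn2, map_mul, map_mul, map_mul, map_pow, har, map_inv, map_inv, mul_comm (η.hom τ)⁻¹,
        inv_mul_cancel_right, inv_mul_cancel]
    rw [← h2 r x, e]
    have e2 : ((x * τ * n2 : K.fixingSubgroup) : GQ) z = ((x * τ : K.fixingSubgroup) : GQ)
      ((n2 : GQ) z) := rfl
    show _ = (n : GQ) (((x * τ * n2 : K.fixingSubgroup) : GQ) z) / _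
    rw [e2]
    rcases hpm n2 hηn2 1 with h | h
    · have h' : (n2 : GQ) z = z := h
      rw [h']
    · have h' : (n2 : GQ) z = -z := h
      rw [h', map_neg, map_neg, neg_div_neg_eq]
  have h4 : ∀ (i : ℕ) x, ε (x * τ ^ i) = ε x := by
    intro i
    induction i with
    | zero => intro x; rw [pow_zero, mul_one]
    | succ i ih => intro x; rw [pow_succ, ← mul_assoc, h3, ih]
  refine ⟨hn, fun x => ?_⟩
  rcases hε x with h | h
  · have : (n : GQ) ((x : GQ) z) / (x : GQ) z = 1 := h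
    rwa [div_eq_one_iff_eq (hzne x)] at this
  · exfalso
    let f : ℕ → Qb := fun i => ((x * τ ^ i : K.fixingSubgroup) : GQ) s
    let Z := ∏ i ∈ Finset.range l, ((x * τ ^ i : K.fixingSubgroup) : GQ) z
    let W := ∏ i ∈ Finset.range l, f i
    have hZne : Z ≠ 0 := Finset.prod_ne_zero_iff.2 fun i _ => hzne _
    have hnZ : (n : GQ) Z = (-1) ^ l * Z := by
      show (n : GQ) (∏ i ∈ Finset.range l, ((x * τ ^ i : K.fixingSubgroup) : GQ) z) = _
      rw [map_prod]
      have : ∀ i ∈ Finset.range l, (n : GQ) (((x * τ ^ i : K.fixingSubgroup) : GQ) z)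
          = (-1) * ((x * τ ^ i : K.fixingSubgroup) : GQ) z := by
        intro i _
        have h5 := h4 i x
        rw [h] at h5
        exact (div_eq_iff (hzne _)).1 h5
      rw [Finset.prod_congr rfl this, Finset.prod_mul_distrib, Finset.prod_const,
        Finset.card_range]
    have hW : Z = W ^ 2 ∨ Z = - W ^ 2 := by
      have e1 : Z = W * ∏ i ∈ Finset.range l, f (i + 1) := by
        show ∏ i ∈ Finset.range l, ((x * τ ^ i : K.fixingSubgroup) : GQ) z = _
        rw [← Finset.prod_mul_distrib]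
        refine Finset.prod_congr rfl fun i _ => ?_
        rw [hzx]
        show _ = f i * ((x * τ ^ (i + 1) : K.fixingSubgroup) : GQ) s
        rw [pow_succ, ← mul_assoc]
      have e2 : f 0 * ∏ i ∈ Finset.range l, f (i + 1) = W * f l := by
        rw [mul_comm, ← Finset.prod_range_succ', Finset.prod_range_succ]
      have hf0 : f 0 ≠ 0 := hne _
      have e3 : f l = f 0 ∨ f l = - f 0 := by
        have h6 : η.hom (x * τ ^ l * x⁻¹) = 1 := by
          rw [map_mul, map_mul, map_pow, hτ, mul_one, map_inv, mul_inv_cancel]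
        have h7 := ker_pm hK' _ h6 x hs
        have e4 : ((x * τ ^ l * x⁻¹ : K.fixingSubgroup) : GQ) ((x : GQ) s) = f l := by
          show ((x * τ ^ l * x⁻¹ * x : K.fixingSubgroup) : GQ) s = _
          rw [inv_mul_cancel_right]
        have e5 : (x : GQ) s = f 0 := by
          show _ = ((x * τ ^ 0 : K.fixingSubgroup) : GQ) s
          rw [pow_zero, mul_one]
        rw [e4, e5] at h7
        exact h7
      rcases e3 with e3 | e3
      · left
        rw [e3, mul_comm W] at e2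
        rw [e1, mul_left_cancel₀ hf0 e2]; ring
      · right
        have : f 0 * ∏ i ∈ Finset.range l, f (i + 1) = f 0 * (- W) := by rw [e2, e3]; ring
        rw [e1, mul_left_cancel₀ hf0 this]; ring
    have hnW : (n : GQ) (W ^ 2) = W ^ 2 := by
      have : W ^ 2 = ∏ i ∈ Finset.range l, ((x * τ ^ i : K.fixingSubgroup) : GQ) (s ^ 2) := by
        show (∏ i ∈ Finset.range l, f i) ^ 2 = _
        rw [← Finset.prod_pow]
        exact Finset.prod_congr rfl fun i _ => (map_pow _ _ _).symm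
      rw [this, map_prod]
      exact Finset.prod_congr rfl fun i _ => ker_fix hK' n hn _ _ hs
    have hnZ2 : (n : GQ) Z = Z := by
      rcases hW with h6 | h6
      · rw [h6, hnW]
      · rw [h6, map_neg, hnW]
    rw [hnZ2, hl.neg_one_pow] at hnZ
    have : (2 : Qb) * Z = 0 := by linear_combination hnZ
    rcases mul_eq_zero.1 this with h7 | h7
    · norm_num at h7
    · exact hZne h7

end

end Pool.Agent.TH965.St
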