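import Pool.Agent.TH965.St.Odd

open NumberField

namespace Pool.Agent.TH965.St

variable {K K' : IntermediateField ℚ Qb} {η : LinChar K}

theorem prim_pow {u : ℂˣ} {l k : ℕ} (hl : l.Prime) (hu : u ^ (l ^ k) = 1) (hu1 : u ≠ 1) :
    ∃ r : ℕ, IsPrimitiveRoot (u ^ r) l := by
  obtain ⟨j, hj, hj2⟩ := (Nat.dvd_prime_pow hl).1 (orderOf_dvd_of_pow_eq_one hu)
  have hj0 : j ≠ 0 := by
    rintro rfl
    rw [pow_zero, orderOf_eq_one_iff] at hj2
    exact hu1 hj2
  obtain ⟨i, rfl⟩ := Nat.exists_eq_succ_of_ne_zero hj0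
  refine ⟨l ^ i, (IsPrimitiveRoot.orderOf u).pow (orderOf_pos_iff.2 ?_) ?_⟩
  · exact isOfFinOrder_iff_pow_eq_one.2 ⟨l ^ k, pow_pos hl.pos _, hu⟩
  · rw [hj2, pow_succ]

theorem exists_tau {l k : ℕ} (hl : l.Prime) (hη : ∀ g, η.hom g ^ (l ^ k) = 1)
    (hne : ∃ g, η.hom g ≠ 1) :
    ∃ τ, η.hom τ ^ l = 1 ∧ η.hom τ ≠ 1 ∧ ∀ a, η.hom a ≠ 1 → ∃ r : ℕ, η.hom a ^ r = η.hom τ := by
  obtain ⟨g, hg⟩ := hne
  obtain ⟨r0, hr0⟩ := prim_pow hl (hη g) hg
  refine ⟨g ^ r0, ?_, ?_, fun a ha => ?_⟩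
  · rw [map_pow]; exact hr0.pow_eq_one
  · rw [map_pow]; exact hr0.ne_one hl.one_lt
  · obtain ⟨r1, hr1⟩ := prim_pow hl (hη a) ha
    have h1 := IsPrimitiveRoot.coe_units_iff.2 hr1
    have : NeZero l := ⟨hl.ne_zero⟩
    obtain ⟨i, _, hi⟩ := h1.eq_pow_of_pow_eq_one
      (show (((η.hom g ^ r0 : ℂˣ)) : ℂ) ^ l = 1 by
        rw [← Units.val_pow_eq_pow_val, hr0.pow_eq_one, Units.val_one])
    refine ⟨r1 * i, ?_⟩
    rw [map_pow, pow_mul]
    ext
    rw [Units.val_pow_eq_pow_val, hi]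

theorem exists_gen {m : ℕ} (hm : 0 < m) (hη : ∀ g, η.hom g ^ m = 1) :
    ∃ g0, ∀ g, ∃ i : ℤ, η.hom g = η.hom g0 ^ i := by
  have : NeZero m := ⟨hm.ne'⟩
  let η' : K.fixingSubgroup →* rootsOfUnity m ℂ :=
    η.hom.codRestrict (rootsOfUnity m ℂ) fun g => (mem_rootsOfUnity m _).2 (hη g)
  have hc : IsCyclic η'.range := inferInstance
  obtain ⟨⟨y, g0, hy⟩, hg⟩ := hc
  refine ⟨g0, fun g => ?_⟩
  obtain ⟨i, hi⟩ := hg ⟨η' g, g, rfl⟩
  refine ⟨i, ?_⟩
  have h1 : y ^ i = η' g := congrArg Subtype.val hi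
  rw [← hy] at h1
  have h2 := congrArg Subtype.val h1
  have h4 : ((η' g : rootsOfUnity m ℂ) : ℂˣ) = ((η' g0 : rootsOfUnity m ℂ) : ℂˣ) ^ i := by
    simpa using h2.symm
  exact h4

theorem Usub_open (hK : NumberField K) (z : Qb) : ∃ L0 : IntermediateField ℚ Qb,
    NumberField L0 ∧ L0.fixingSubgroup ≤ (Usub η z).map K.fixingSubgroup.subtype := by
  obtain ⟨L, hL, hL2⟩ := η.smooth
  have h1 : NumberField (K ⊔ L ⊔ IntermediateField.adjoin ℚ {z} : IntermediateField ℚ Qb) :=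
    nf_sup (nf_sup hK hL) (nf_adjoin z)
  have : FiniteDimensional ℚ (K ⊔ L ⊔ IntermediateField.adjoin ℚ {z} :
    IntermediateField ℚ Qb) := (nf_iff _).1 h1
  let L0 := IntermediateField.normalClosure ℚ
    (K ⊔ L ⊔ IntermediateField.adjoin ℚ {z} : IntermediateField ℚ Qb) Qb
  have hle : (K ⊔ L ⊔ IntermediateField.adjoin ℚ {z} : IntermediateField ℚ Qb) ≤ L0 :=
    IntermediateField.le_normalClosure _
  have hfd : FiniteDimensional ℚ L0 := normalClosure.is_finiteDimensional ℚ _ Qb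
  have hn : Normal ℚ L0 := normalClosure.normal ℚ _ Qb
  refine ⟨L0, (nf_iff _).2 hfd, fun g hg => ?_⟩
  have hgK : g ∈ K.fixingSubgroup :=
    IntermediateField.fixingSubgroup_le ((le_sup_left.trans le_sup_left).trans hle) hg
  refine ⟨⟨g, hgK⟩, ⟨?_, fun x => ?_⟩, rfl⟩
  · exact hL2 _ (IntermediateField.fixingSubgroup_le ((le_sup_right.trans le_sup_left).trans hle) hg)
  · have hz : z ∈ L0 := hle ((le_sup_right : IntermediateField.adjoin ℚ {z} ≤ _)
      (IntermediateField.mem_adjoin_simple_self ℚ z))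
    have hxz : (x : GQ) z ∈ L0 := by
      have := AlgEquiv.restrictNormal_commutes (x : GQ) L0 ⟨z, hz⟩
      have e : (x : GQ) z = algebraMap L0 Qb ((x : GQ).restrictNormal L0 ⟨z, hz⟩) := this.symm
      rw [e]
      exact ((x : GQ).restrictNormal L0 ⟨z, hz⟩).2
    exact (IntermediateField.mem_fixingSubgroup_iff _ _).1 hg _ hxz

theorem quad_sign' {j : Qb →+* ℂ} {c : GQ} (h : Cj j c) {s a : Qb} (hca : c a = a)
    (hs : s ^ 2 = a) :
    (0 < (j a).re → c s = s) ∧ ((j a).re < 0 → c s = - s) := by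
  have hre : (starRingEnd ℂ) (j a) = j a := by rw [← h a, hca]
  have h2 : (j s) ^ 2 = j a := by rw [← map_pow, hs]
  have h3 : ((j s) ^ 2).im = 0 := by rw [h2]; exact Complex.conj_eq_iff_im.1 hre
  have h4 : (j a).re = (j s).re ^ 2 - (j s).im ^ 2 := by
    rw [← h2, sq, Complex.mul_re]; ring
  have h5 : (j s).re * (j s).im = 0 := by
    rw [sq, Complex.mul_im] at h3
    linarith
  constructor
  · intro hpos
    apply j.injective
    rw [h s, Complex.conj_eq_iff_im]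
    rcases mul_eq_zero.1 h5 with h6 | h6
    · rw [h6] at h4
      nlinarith [sq_nonneg (j s).im]
    · exact h6
  · intro hneg
    apply j.injective
    rw [h s, map_neg]
    rcases mul_eq_zero.1 h5 with h6 | h6
    · apply Complex.ext
      · rw [Complex.conj_re, Complex.neg_re, h6, neg_zero]
      · rw [Complex.conj_im, Complex.neg_im]
    · rw [h6] at h4
      nlinarith [sq_nonneg (j s).re]

theorem sign_choice [NumberField K] [NumberField K'] (hKK' : K ≤ K')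
    (hK' : ∀ g : K.fixingSubgroup, (g : GQ) ∈ K'.fixingSubgroup ↔ η.hom g = 1)
    (τ : K.fixingSubgroup) (hτ : η.hom τ ≠ 1) :
    ∃ β : K', ∀ (j : Qb →+* ℂ) (c : K.fixingSubgroup), Cj j c → η.hom c = 1 →
      ∃ x : K.fixingSubgroup, 0 < (j ((x : GQ) (β : Qb))).re ∧
        (j (((x * τ : K.fixingSubgroup) : GQ) (β : Qb))).re < 0 := by
  let i : K →+* K' := (IntermediateField.inclusion hKK').toRingHom
  let _ : Algebra K K' := i.toAlgebra
  have halg : Algebra.IsAlgebraic K K' := by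
    have : Algebra.IsAlgebraic ℚ K' := inferInstance
    have : IsScalarTower ℚ K K' := IsScalarTower.of_algebraMap_eq fun x => by
      simp
    exact Algebra.IsAlgebraic.tower_top (K := ℚ) K
  have hs : Function.Surjective (fun w : InfinitePlace K' => w.comap (algebraMap K K')) :=
    InfinitePlace.comap_surjective
  choose f hf using hs
  obtain ⟨β, hβ⟩ := exists_sign K' (fun w => w = f (w.comap (algebraMap K K')))
  refine ⟨β, fun j c hc hηc => ?_⟩
  have hcomp : ∀ j' : Qb →+* ℂ, (j'.comp (algebraMap K' Qb)).comp (algebraMap K K') =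
    j'.comp (algebraMap K Qb) := fun j' => rfl
  obtain ⟨w1, hw1⟩ : ∃ w1, w1 = f (InfinitePlace.mk (j.comp (algebraMap K Qb))) := ⟨_, rfl⟩
  obtain ⟨φ1, hφ1⟩ : ∃ φ1 : K' →+* ℂ, InfinitePlace.mk φ1 = w1 :=
    ⟨w1.embedding, InfinitePlace.mk_embedding w1⟩
  let j1 : Qb →+* ℂ := ComplexEmbedding.lift Qb φ1
  have hj1 : j1.comp (algebraMap K' Qb) = φ1 := ComplexEmbedding.lift_comp_algebraMap Qb φ1
  have hv1 : InfinitePlace.mk (j1.comp (algebraMap K Qb)) =
      InfinitePlace.mk (j.comp (algebraMap K Qb)) := by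
    rw [← hcomp, hj1, ← InfinitePlace.comap_mk, hφ1, hw1]
    exact hf _
  have hjj := comp_eq_of_mk_eq hc c.2 hv1.symm
  obtain ⟨σ, hσ⟩ := ComplexEmbedding.exists_comp_symm_eq_of_comp_eq j j1 hjj
  let x : K.fixingSubgroup := (IntermediateField.fixingSubgroupEquiv K).symm σ.symm
  have hx : ∀ y, j ((x : GQ) y) = j1 y := fun y => RingHom.congr_fun hσ y
  have e1 : ∀ k : K', j ((x : GQ) (k : Qb)) = φ1 k := fun k => by
    rw [hx]; exact RingHom.congr_fun hj1 k
  let φ2 : K' →+* ℂ := (j.comp (((x * τ : K.fixingSubgroup) : GQ) : Qb →+* Qb)).comp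
    (algebraMap K' Qb)
  have e2 : ∀ k : K', j (((x * τ : K.fixingSubgroup) : GQ) (k : Qb)) = φ2 k := fun k => rfl
  have hv2 : (InfinitePlace.mk φ2).comap (algebraMap K K') =
      InfinitePlace.mk (j.comp (algebraMap K Qb)) := by
    rw [InfinitePlace.comap_mk]
    congr 1
    ext y
    show j (((x * τ : K.fixingSubgroup) : GQ) (y : Qb)) = j (y : Qb)
    rw [(IntermediateField.mem_fixingSubgroup_iff _ _).1 (x * τ).2 _ y.2]
  refine ⟨x, ?_, ?_⟩
  · rw [e1]
    refine (hβ φ1).1 ?_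
    rw [hφ1]
    have : w1.comap (algebraMap K K') = InfinitePlace.mk (j.comp (algebraMap K Qb)) := by
      rw [hw1]; exact hf _
    rw [this]
    exact hw1
  · rw [e2]
    refine (hβ φ2).2 ?_
    rw [hv2, ← hw1, ← hφ1]
    intro h12
    have hreal : ∀ k : K', (starRingEnd ℂ) (φ2 k) = φ2 k := by
      intro k
      rw [← e2, ← hc, ker_fix hK' c hηc _ _ k.2]
    have h3 : φ2 = φ1 := by
      rcases InfinitePlace.mk_eq_iff.1 h12 with h | h
      · exact h
      · rw [← h]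
        ext k
        exact (hreal k).symm
    apply hτ
    rw [← hK', IntermediateField.mem_fixingSubgroup_iff]
    intro k hk
    have h4 := RingHom.congr_fun h3 ⟨k, hk⟩
    rw [← e2, ← e1] at h4
    have h5 := j.injective h4
    rw [Subgroup.coe_mul, AlgEquiv.mul_apply] at h5
    exact (x : GQ).injective h5

theorem odd_cc {m : ℕ} (hm : Odd m) (hη : ∀ g, η.hom g ^ m = 1) {c : K.fixingSubgroup}
    (hc : IsCC (c : GQ)) : η.hom c = 1 := by
  obtain ⟨j, hj⟩ := hc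
  have h1 : c * c = 1 := Subtype.ext (Cj.sq hj)
  have h2 : η.hom c ^ 2 = 1 := by rw [sq, ← map_mul, h1, map_one]
  obtain ⟨t, ht⟩ := hm
  have h3 := hη c
  rw [ht, pow_add, pow_mul, h2, one_pow, one_mul, pow_one] at h3
  exact h3

theorem sq_fix (hK' : ∀ g : K.fixingSubgroup, (g : GQ) ∈ K'.fixingSubgroup ↔ η.hom g = 1)
    (n : K.fixingSubgroup) (hn : η.hom n = 1) (x : K.fixingSubgroup) {s : Qb} (hs : s ^ 2 ∈ K') :
    ((n * n : K.fixingSubgroup) : GQ) ((x : GQ) s) = (x : GQ) s := by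
  rw [Subgroup.coe_mul, AlgEquiv.mul_apply]
  rcases ker_pm hK' n hn x hs with h | h
  · rw [h, h]
  · rw [h, map_neg, h, neg_neg]

/-- the step removing the odd primary parts of a character -/
theorem odd_step (hK : NumberField K) {l k : ℕ} (hl : l.Prime) (hl2 : l ≠ 2)
    (hη : ∀ g, η.hom g ^ (l ^ k) = 1) (hne : ∃ g, η.hom g ≠ 1) :
    ∃ K2 : IntermediateField ℚ Qb, NumberField K2 ∧ K ≤ K2 ∧
      (∀ c ∈ K2.fixingSubgroup, ¬ IsCC c) ∧
      ∀ (g : GQ) (hg : g ∈ K.fixingSubgroup), η.hom ⟨g, hg⟩ ≠ 1 →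
        ind K K2 (LinChar.one : LinChar K2).fn g = 1 := by
  classical
  have hodd : Odd l := hl.odd_of_ne_two hl2
  have hoddm : Odd (l ^ k) := hodd.pow
  obtain ⟨τ, hτl, hτ1, hτa⟩ := exists_tau hl hη hne
  obtain ⟨g0, hg0⟩ := exists_gen (pow_pos hl.pos k) hη
  -- the field `K'`
  obtain ⟨L, hL, hL2⟩ := η.smooth
  have hKL : NumberField (K ⊔ L : IntermediateField ℚ Qb) := nf_sup hK hL
  obtain ⟨K', hK'nf, hK'fix, -⟩ := exists_field hKL (η.hom.ker.map K.fixingSubgroup.subtype) (by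
    intro g hg
    have hgK := IntermediateField.fixingSubgroup_le le_sup_left hg
    exact ⟨⟨g, hgK⟩, hL2 _ (IntermediateField.fixingSubgroup_le le_sup_right hg), rfl⟩)
  have hK' : ∀ g : K.fixingSubgroup, (g : GQ) ∈ K'.fixingSubgroup ↔ η.hom g = 1 := by
    intro g
    rw [hK'fix]
    constructor
    · rintro ⟨g', hg', h⟩
      have : g' = g := Subtype.ext h
      rw [← this]
      exact hg'
    · intro h
      exact ⟨g, h, rfl⟩
  have hKK' : K ≤ K' := by
    rw [fixing_le_iff, hK'fix]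
    rintro g ⟨g', _, rfl⟩
    exact g'.2
  obtain ⟨β, hβ⟩ := sign_choice hKK' hK' τ hτ1
  obtain ⟨s, hs⟩ := IsAlgClosed.exists_pow_nat_eq (k := Qb) (β : Qb) (n := 2) (by norm_num)
  by_cases hex : ∃ (j : Qb →+* ℂ) (c : K.fixingSubgroup), Cj j c ∧ η.hom c = 1
  swap
  · refine ⟨K, hK, le_rfl, fun c hc hcc => hex ?_, fun g hg _ => ?_⟩
    · obtain ⟨j, hj⟩ := hcc
      exact ⟨j, ⟨c, hc⟩, hj, odd_cc (c := ⟨c, hc⟩) hoddm hη ⟨j, hj⟩⟩
    · rw [ind_self, LinChar.one_fn _ hg]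
  obtain ⟨jj, cc, hcc1, hcc2⟩ := hex
  have hs0 : s ≠ 0 := by
    rintro rfl
    obtain ⟨x, hx1, hx2⟩ := hβ jj cc hcc1 hcc2
    rw [← hs, zero_pow (by norm_num), map_zero, map_zero, Complex.zero_re] at hx1
    exact lt_irrefl _ hx1
  have hsK' : s ^ 2 ∈ K' := by rw [hs]; exact β.2
  have hUnormal : (Usub η (s * (τ : GQ) s)).Normal := Usub_normal η _
  obtain ⟨L0, hL0, hL02⟩ := Usub_open (η := η) hK (s * (τ : GQ) s)
  have hfin : Finite (K.fixingSubgroup ⧸ Usub η (s * (τ : GQ) s)) := by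
    have h1 := finite_quot_of_open hL0 _ hL02
    have h2 : ((Usub η (s * (τ : GQ) s)).map K.fixingSubgroup.subtype).FiniteIndex :=
      Subgroup.finiteIndex_of_finite_quotient
    have h3 : (((Usub η (s * (τ : GQ) s)).map K.fixingSubgroup.subtype).subgroupOf
      K.fixingSubgroup).FiniteIndex := inferInstance
    have h4 : ((Usub η (s * (τ : GQ) s)).map K.fixingSubgroup.subtype).subgroupOf
      K.fixingSubgroup = Usub η (s * (τ : GQ) s) :=
      Subgroup.comap_map_eq_self_of_injective (Subgroup.subtype_injective _) _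
    rw [h4] at h3
    exact Subgroup.finite_quotient_of_finiteIndex
  obtain ⟨H, hUH, hHU, hH⟩ := unique_fixed η.hom (Usub η (s * (τ : GQ) s))
    (fun n hn => hn.1) (by
      intro n hn
      refine ⟨by rw [map_mul, (MonoidHom.mem_ker).1 hn, one_mul], fun x => ?_⟩
      have hzx : (x : GQ) (s * (τ : GQ) s) = (x : GQ) s * ((x * τ : K.fixingSubgroup) : GQ) s := by
        rw [map_mul]; rfl
      rw [hzx, map_mul, sq_fix hK' n hn x hsK', sq_fix hK' n hn (x * τ) hsK']) hfin (l ^ k) hoddm hη g0 hg0 (by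
      intro a ha n hn hU
      obtain ⟨r, hr⟩ := hτa a ha
      exact fpf hK' hs0 hsK' τ l hodd hτl a r hr n hn hU)
  obtain ⟨K2, hK2nf, hK2fix, -⟩ := exists_field hL0 (H.map K.fixingSubgroup.subtype)
    (hL02.trans (Subgroup.map_mono hUH))
  have hsub : K2.fixingSubgroup.subgroupOf K.fixingSubgroup = H := by
    rw [hK2fix]
    exact Subgroup.comap_map_eq_self_of_injective (Subgroup.subtype_injective _) _
  have hKK2 : K ≤ K2 := by
    rw [fixing_le_iff, hK2fix]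
    rintro g ⟨g', _, rfl⟩
    exact g'.2
  refine ⟨K2, hK2nf, hKK2, ?_, ?_⟩
  · intro c hc hcc
    rw [hK2fix] at hc
    obtain ⟨h, hh, rfl⟩ := hc
    have h1 : η.hom h = 1 := odd_cc hoddm hη hcc
    have h2 := hHU h hh h1
    obtain ⟨j, hj⟩ := hcc
    obtain ⟨x, hx1, hx2⟩ := hβ j h hj h1
    have hb : ∀ y : K.fixingSubgroup, (h : GQ) ((y : GQ) (β : Qb)) = (y : GQ) (β : Qb) :=
      fun y => ker_fix hK' h h1 y _ β.2
    have q1 := (quad_sign' hj (hb x) (s := (x : GQ) s) (by rw [← map_pow, hs])).1 hx1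
    have q2 := (quad_sign' hj (hb (x * τ)) (s := ((x * τ : K.fixingSubgroup) : GQ) s)
      (by rw [← map_pow, hs])).2 hx2
    have h3 := h2.2 x
    have hzx : (x : GQ) (s * (τ : GQ) s) = (x : GQ) s * ((x * τ : K.fixingSubgroup) : GQ) s := by
      rw [map_mul]; rfl
    rw [hzx, map_mul] at h3
    rw [show (h : GQ) ((x : GQ) s) = (x : GQ) s from q1,
      show (h : GQ) (((x * τ : K.fixingSubgroup) : GQ) s) =
        - ((x * τ : K.fixingSubgroup) : GQ) s from q2] at h3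
    have hne2 : ∀ (y : K.fixingSubgroup), (y : GQ) s ≠ 0 := fun y h => hs0
      ((EmbeddingLike.map_eq_zero_iff).1 h)
    have h4 : (2 : Qb) * ((x : GQ) s * ((x * τ : K.fixingSubgroup) : GQ) s) = 0 := by
      linear_combination -h3
    rcases mul_eq_zero.1 h4 with h5 | h5
    · norm_num at h5
    · rcases mul_eq_zero.1 h5 with h6 | h6
      · exact hne2 _ h6
      · exact hne2 _ h6
  · intro g hg hg1
    have hH' : ∀ g, η.hom g ≠ 1 →
        ∃! q : K.fixingSubgroup ⧸ (K2.fixingSubgroup.subgroupOf K.fixingSubgroup),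
          q.out⁻¹ * g * q.out ∈ K2.fixingSubgroup.subgroupOf K.fixingSubgroup := by
      rw [hsub]; exact hH
    obtain ⟨q, hq1, hq2⟩ := hH' ⟨g, hg⟩ hg1
    unfold ind
    rw [finsum_eq_single _ q]
    · have h1 : (q.out : GQ)⁻¹ * g * (q.out : GQ) ∈ K2.fixingSubgroup :=
        Subgroup.mem_subgroupOf.1 hq1
      exact LinChar.one_fn _ h1
    · intro q' hq'
      refine LinChar.fn_of_not_mem _ fun h' => hq' (hq2 q' ?_)
      exact Subgroup.mem_subgroupOf.2 h'

end Pool.Agent.TH965.St
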