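import Pool.Agent.TH965.St.Main

open NumberField

namespace Pool.Agent.TH965.St

variable {K K1 K2 : IntermediateField ℚ Qb}

theorem quad_data (hK : NumberField K) (ψ : LinChar K) (e : ℂˣ) :
    ∃ (a : K) (s : Qb), s ^ 2 = (a : Qb) ∧ ∀ (τ : Qb →+* ℂ) (c : K.fixingSubgroup),
      Cj τ c → (ψ.hom c = e → (c : GQ) s = s) ∧ (ψ.hom c ≠ e → (c : GQ) s = -s ∧ s ≠ 0) := by
  obtain ⟨a, ha⟩ := exists_sign K (fun v => ∃ (c : K.fixingSubgroup) (τ : Qb →+* ℂ),
    Cj τ c ∧ InfinitePlace.mk (τ.comp (algebraMap K Qb)) = v ∧ ψ.hom c = e)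
  obtain ⟨s, hs⟩ := IsAlgClosed.exists_pow_nat_eq (k := Qb) (a : Qb) (n := 2) (by norm_num)
  refine ⟨a, s, hs, fun τ c hc => ⟨fun h1 => ?_, fun h1 => ?_⟩⟩
  · have hp := (ha (τ.comp (algebraMap K Qb))).1 ⟨c, τ, hc, rfl, h1⟩
    exact (quad_sign hc c.2 hs).1 hp
  · have hn : (((τ.comp (algebraMap K Qb)) a)).re < 0 := by
      refine (ha (τ.comp (algebraMap K Qb))).2 ?_
      rintro ⟨c', τ', hc', hm, h2⟩
      apply h1
      rw [← h2]
      exact ψ.eq_of_cj hc hc' (comp_eq_of_mk_eq hc c.2 hm.symm)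
    refine ⟨(quad_sign hc c.2 hs).2 hn, ?_⟩
    rintro rfl
    rw [zero_pow (by norm_num)] at hs
    have : (τ.comp (algebraMap K Qb)) a = 0 := by
      show τ (a : Qb) = 0
      rw [← hs, map_zero]
    rw [this, Complex.zero_re] at hn
    exact lt_irrefl _ hn

theorem z2_cases (i : ZMod 2) : i = 0 ∨ i = 1 := by revert i; decide

theorem z2_units (x y : (ZMod 2)ˣ) : x = y := by revert x y; decide

theorem z2_val (u : (ZMod 2)ˣ) : (u : ZMod 2).val = 1 := by revert u; decide

theorem prim_neg_one : IsPrimitiveRoot (-1 : Qb) 2 := IsPrimitiveRoot.neg_one 0 (by norm_num)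

/-- the step making the sign at the real places constant -/
theorem quad_step (hK : NumberField K) (ψ : LinChar K) (e : ℂˣ) (he : e = 1 ∨ e = -1)
    (hψ : ¬ ψ.HasSign e) :
    ∃ (s : Qb) (a : K), s ^ 2 = (a : Qb) ∧ (∃ g ∈ K.fixingSubgroup, g s ≠ s) ∧
    ∃ (h : K ≤ K ⊔ IntermediateField.adjoin ℚ {s}) (ω : LinChar K),
      (ψ.mul ω).HasSign e ∧ (∀ g, ω.hom g ^ 2 = 1) ∧
      (∀ c : K.fixingSubgroup, IsCC (c : GQ) →
        ((c : GQ) ∈ (K ⊔ IntermediateField.adjoin ℚ {s}).fixingSubgroup ↔ ψ.hom c = e)) ∧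
      ∀ {M : Type} [CommGroup M] (A : Family M), A.D (K ⊔ IntermediateField.adjoin ℚ {s}) (ψ.res h).fn =
        A.D K ψ.fn * A.D K (ψ.mul ω).fn := by
  classical
  obtain ⟨a, s, hs, hcc⟩ := quad_data hK ψ e
  have hex : ∃ c : K.fixingSubgroup, IsCC (c : GQ) ∧ ψ.hom c ≠ e := by
    by_contra hcon
    push Not at hcon
    exact hψ hcon
  obtain ⟨c0, ⟨τ0, hc0⟩, hne0⟩ := hex
  obtain ⟨hc0s, hs0⟩ := (hcc τ0 c0 hc0).2 hne0
  have hne : (c0 : GQ) s ≠ s := by
    rw [hc0s]
    intro h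
    exact hs0 (neg_eq_self.1 h)
  refine ⟨s, a, hs, ⟨c0, c0.2, hne⟩, le_sup_left, ?_⟩
  have hFs : NumberField (IntermediateField.adjoin ℚ {s}) := nf_adjoin s
  have hK1 : NumberField (K ⊔ IntermediateField.adjoin ℚ {s} : IntermediateField ℚ Qb) :=
    nf_sup hK hFs
  have hp2 : Fact (Nat.Prime 2) := ⟨Nat.prime_two⟩
  have hyp : ∀ g ∈ K.fixingSubgroup, g (s ^ 2) = s ^ 2 := by
    intro g hg
    rw [hs]
    exact (IntermediateField.mem_fixingSubgroup_iff _ _).1 hg a a.2
  have hneg : ∀ g ∈ K.fixingSubgroup, g (-1 : Qb) = -1 := fun g _ => by rw [map_neg, map_one]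
  have hpm : ∀ g ∈ K.fixingSubgroup, g s = s ∨ g s = -s := by
    intro g hg
    have h1 : (g s) ^ 2 = s ^ 2 := by rw [← map_pow, hyp g hg]
    exact sq_eq_sq_iff_eq_or_eq_neg.1 h1
  have key := fun {M : Type} [CommGroup M] (A : Family M) => A.of_identity hK hK1 hK le_sup_left le_rfl _
    (kummer_identity (K := K) (K1 := K ⊔ IntermediateField.adjoin ℚ {s})
      (K2 := K) (p := 2) prim_neg_one τ0 hs0 le_rfl le_sup_left
      hyp hyp hneg
      (fun g hg => ⟨fun h => hneg g hg, fun _ => hg⟩)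
      (fun g hg => ⟨fun h => ((mem_fix_sup K s g).1 h).2, fun h => (mem_fix_sup K s g).2 ⟨hg, h⟩⟩)
      (fun i => by
        have hi : i = 0 ∨ i = 1 := z2_cases i
        rcases hi with rfl | rfl
        · exact ⟨1, K.fixingSubgroup.one_mem, by rw [Z_zero, one_mul]; rfl⟩
        · refine ⟨c0, c0.2, ?_⟩
          rw [hc0s]
          have h1 : Z (-1 : Qb) (1 : ZMod 2) = -1 := by
            unfold Z
            rw [ZMod.val_one, pow_one]
          rw [h1, neg_one_mul])) ψ
  let ω : LinChar K := kum prim_neg_one τ0 s hs0 hyp hneg 1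
  have hω1 : ∀ c : K.fixingSubgroup, (c : GQ) s = s → ω.hom c = 1 := by
    intro c hc
    ext
    show τ0 ((c : GQ) s / s) ^ 1 = 1
    rw [hc, div_self hs0, map_one, one_pow]
  have hω2 : ∀ c : K.fixingSubgroup, (c : GQ) s = -s → ω.hom c = -1 := by
    intro c hc
    ext
    show τ0 ((c : GQ) s / s) ^ 1 = -1
    rw [hc, neg_div, div_self hs0, map_neg, map_one, pow_one]
  have hωsq : ∀ c, ω.hom c ^ 2 = 1 := by
    intro c
    rcases hpm c c.2 with h | h
    · rw [hω1 c h, one_pow]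
    · rw [hω2 c h]; simp
  refine ⟨ω, ?_, hωsq, ?_, ?_⟩
  · rintro c ⟨τ, hc⟩
    show ψ.hom c * ω.hom c = e
    by_cases h : ψ.hom c = e
    · rw [hω1 c ((hcc τ c hc).1 h), h, mul_one]
    · rw [hω2 c ((hcc τ c hc).2 h).1]
      have h2 : ψ.hom c * ψ.hom c = 1 := by
        rw [← map_mul]
        have : c * c = 1 := Subtype.ext (Cj.sq hc)
        rw [this, map_one]
      have h3 : ψ.hom c = 1 ∨ ψ.hom c = -1 := by
        have h4 : (ψ.hom c : ℂ) * (ψ.hom c : ℂ) = 1 := by
          have := congrArg Units.val h2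
          simpa using this
        rcases mul_self_eq_one_iff.1 h4 with h5 | h5
        · left; ext; simpa using h5
        · right; ext; simpa using h5
      rcases he with rfl | rfl
      · rcases h3 with h3 | h3
        · exact absurd h3 h
        · rw [h3]; simp
      · rcases h3 with h3 | h3
        · rw [h3]; simp
        · exact absurd h3 h
  · rintro c ⟨τ, hc⟩
    rw [mem_fix_sup]
    constructor
    · rintro ⟨_, h⟩
      by_contra hne
      have h1 := ((hcc τ c hc).2 hne).1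
      rw [h] at h1
      exact hs0 (self_eq_neg.1 h1)
    · intro h
      exact ⟨c.2, (hcc τ c hc).1 h⟩
  · intro M _ A
    rw [key A]
    congr 1
    have hsub : Subsingleton ((ZMod 2)ˣ ⧸ Delta prim_neg_one K) := by
      constructor
      intro x y
      induction x using QuotientGroup.induction_on with
      | H x =>
        induction y using QuotientGroup.induction_on with
        | H y =>
          have : x = y := z2_units x y
          rw [this]
    rw [Fintype.prod_subsingleton _ (QuotientGroup.mk 1)]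
    rw [z2_val]
    rfl

end Pool.Agent.TH965.St
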