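import Pool.Agent.TH965.St.Quot

open NumberField

namespace Pool.Agent.TH965.Stk

/-- The absolute Galois group of `ℚ`: the group of automorphisms of the algebraic closure of `ℚ`. -/
def GQ : Type := Gal(AlgebraicClosure ℚ/ℚ)

noncomputable instance instGroupGQ : Group GQ :=
  inferInstanceAs (Group Gal(AlgebraicClosure ℚ/ℚ))

/-- Subfields of the algebraic closure of `ℚ`. -/
def SubQ : Type := IntermediateField ℚ (AlgebraicClosure ℚ)

/-- The underlying intermediate field. -/
def SubQ.toIF (K : SubQ) : IntermediateField ℚ (AlgebraicClosure ℚ) := K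

/-- The underlying automorphism. -/
def GQ.toAut (g : GQ) : Gal(AlgebraicClosure ℚ/ℚ) := g

/-- The absolute Galois group of the field `K`, as a subgroup of that of `ℚ`. -/
noncomputable def G (K : SubQ) : Subgroup GQ := K.toIF.fixingSubgroup

/-- Inclusion of subfields. -/
def Incl (K K' : SubQ) : Prop :=
  K.toIF ≤ K'.toIF

/-- `K` is a number field. -/
def IsNF (K : SubQ) : Prop :=
  NumberField K.toIF

/-- The number of complex places of `K`. -/
noncomputable def r2 (K : SubQ) : ℕ :=
  Nat.card {w : InfinitePlace K.toIF //
    w.IsComplex}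

/-- `K` is totally complex. -/
def IsTC (K : SubQ) : Prop :=
  IsTotallyComplex K.toIF

/-- `c` is a complex conjugation: the complex conjugation of some embedding of the algebraic
closure of `ℚ` into `ℂ`. -/
def IsCC (c : GQ) : Prop :=
  ∃ τ : AlgebraicClosure ℚ →+* ℂ, ∀ x,
    τ (c.toAut x) = (starRingEnd ℂ) (τ x)

/-- A linear (one-dimensional) Artin character of `K`. -/
structure LinChar (K : SubQ) where
  /-- the underlying homomorphism -/
  hom : G K →* ℂˣ
  /-- it factors through a finite quotient -/
  smooth : ∃ L : SubQ, IsNF L ∧ ∀ g : G K, (g : GQ) ∈ G L → hom g = 1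

open Classical in
/-- The linear character as a function on the absolute Galois group of `ℚ`, extended by zero. -/
noncomputable def LinChar.fn {K : SubQ} (ψ : LinChar K) : GQ → ℂ :=
  fun g => if h : g ∈ G K then (ψ.hom ⟨g, h⟩ : ℂ) else 0

/-- `ψ(c) = e` for every complex conjugation `c` in the absolute Galois group of `K`. -/
def LinChar.HasSign {K : SubQ} (ψ : LinChar K) (e : ℂˣ) : Prop :=
  ∀ c : G K, IsCC (c : GQ) → ψ.hom c = e

/-- Induction of class functions from `G K'` to `G K`, for functions extended by zero to the
absolute Galois group of `ℚ`. -/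
noncomputable def ind (K K' : SubQ) (f : GQ → ℂ) : GQ → ℂ :=
  fun g => ∑ᶠ q : G K ⧸ ((G K').subgroupOf (G K)), f ((q.out : GQ)⁻¹ * g * (q.out : GQ))

/-- The group of virtual Artin characters of `K`: the group generated by the characters induced
from linear characters of finite extensions of `K` (Brauer). -/
def Virt (K : SubQ) : AddSubgroup (GQ → ℂ) :=
  AddSubgroup.closure {f | ∃ K' : SubQ, Incl K K' ∧ IsNF K' ∧ ∃ ψ : LinChar K', f = ind K K' ψ.fn}

/-- A family of elements of a commutative group `M` attached to number fields and their virtual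
Artin characters, multiplicative in the character and invariant under induction of linear
characters. -/
structure Family (M : Type) [CommGroup M] where
  /-- the value at a pair (field, character) -/
  D : SubQ → (GQ → ℂ) → M
  /-- multiplicativity -/
  map_add : ∀ K : SubQ, IsNF K → ∀ f ∈ Virt K, ∀ g ∈ Virt K, D K (f + g) = D K f * D K g
  /-- invariance under induction -/
  map_ind : ∀ K K' : SubQ, IsNF K' → Incl K K' →
    ∀ ψ : LinChar K', D K (ind K K' ψ.fn) = D K' ψ.fn

end Pool.Agent.TH965.Stk
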