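import Pool.Agent.TH965.St.Cyc

open NumberField

namespace Pool.Agent.TH965.St

theorem exists_sign (K : Type) [Field K] [NumberField K] (P : InfinitePlace K → Prop) :
    ∃ a : K, ∀ φ : K →+* ℂ,
      (P (InfinitePlace.mk φ) → 0 < (φ a).re) ∧ (¬ P (InfinitePlace.mk φ) → (φ a).re < 0) := by
  classical
  let t : InfinitePlace K → K := fun v => if P v then 1 else -1
  have hd := InfinitePlace.denseRange_algebraMap_pi K
  have ho : IsOpen {x : (v : InfinitePlace K) → WithAbs v.1 |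
      ∀ v, ‖x v - WithAbs.toAbs v.1 (t v)‖ < 1} := by
    have h : {x : (v : InfinitePlace K) → WithAbs v.1 |
      ∀ v, ‖x v - WithAbs.toAbs v.1 (t v)‖ < 1} = ⋂ v, {x |
        ‖x v - WithAbs.toAbs v.1 (t v)‖ < 1} := by
      ext x; simp
    rw [h]
    refine isOpen_iInter_of_finite fun v => ?_
    refine isOpen_lt ?_ continuous_const
    exact ((continuous_apply v).sub continuous_const).norm
  obtain ⟨a, ha⟩ := hd.exists_mem_open ho ⟨fun v => WithAbs.toAbs v.1 (t v), by
    intro v; simp⟩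
  refine ⟨a, fun φ => ?_⟩
  have h1 := ha (InfinitePlace.mk φ)
  have h2 : ‖φ (a - t (InfinitePlace.mk φ))‖ < 1 := h1
  rw [map_sub] at h2
  have h3 := lt_of_le_of_lt (Complex.abs_re_le_norm _) h2
  rw [Complex.sub_re, abs_lt] at h3
  constructor
  · intro hP
    have : t (InfinitePlace.mk φ) = 1 := if_pos hP
    rw [this, map_one, Complex.one_re] at h3
    linarith [h3.1]
  · intro hP
    have : t (InfinitePlace.mk φ) = -1 := if_neg hP
    rw [this, map_neg, map_one, Complex.neg_re, Complex.one_re] at h3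
    linarith [h3.2]

/-- `c` is the complex conjugation of `τ`. -/
def Cj (τ : Qb →+* ℂ) (c : GQ) : Prop := ∀ x, τ (c x) = (starRingEnd ℂ) (τ x)

variable {K : IntermediateField ℚ Qb}

theorem Cj.real {τ : Qb →+* ℂ} {c : GQ} (h : Cj τ c) (hc : c ∈ K.fixingSubgroup) (x : K) :
    (starRingEnd ℂ) (τ x) = τ x := by
  rw [← h x, (IntermediateField.mem_fixingSubgroup_iff _ _).1 hc x x.2]

theorem cj_conj {τ τ' : Qb →+* ℂ} {c c' : GQ} (h : Cj τ c) (h' : Cj τ' c')
    (hττ : τ.comp (algebraMap K Qb) = τ'.comp (algebraMap K Qb)) :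
    ∃ k : K.fixingSubgroup, c' = (k : GQ) * c * (k : GQ)⁻¹ := by
  obtain ⟨σ, hσ⟩ := ComplexEmbedding.exists_comp_symm_eq_of_comp_eq τ τ' hττ
  have hσ' : ∀ x, τ (σ.symm x) = τ' x := fun x => RingHom.congr_fun hσ x
  refine ⟨(IntermediateField.fixingSubgroupEquiv K).symm σ, ?_⟩
  have e1 : ∀ x, (((IntermediateField.fixingSubgroupEquiv K).symm σ : K.fixingSubgroup) : GQ) x
      = σ x := fun x => rfl
  have e2 : ∀ x, (((IntermediateField.fixingSubgroupEquiv K).symm σ : K.fixingSubgroup) : GQ)⁻¹ x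
      = σ.symm x := fun x => rfl
  ext x
  apply τ'.injective
  rw [h' x, AlgEquiv.mul_apply, AlgEquiv.mul_apply, e1, e2, ← hσ', ← hσ', AlgEquiv.symm_apply_apply,
    h _]

theorem LinChar.eq_of_cj (ψ : LinChar K) {τ τ' : Qb →+* ℂ} {c c' : K.fixingSubgroup}
    (h : Cj τ c) (h' : Cj τ' c')
    (hττ : τ.comp (algebraMap K Qb) = τ'.comp (algebraMap K Qb)) : ψ.hom c = ψ.hom c' := by
  obtain ⟨k, hk⟩ := cj_conj h h' hττ
  have e : c' = k * c * k⁻¹ := Subtype.ext hk
  rw [e, map_mul, map_mul, map_inv, mul_comm (ψ.hom k), mul_inv_cancel_right]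

theorem Cj.sq {τ : Qb →+* ℂ} {c : GQ} (h : Cj τ c) : c * c = 1 := by
  ext x
  apply τ.injective
  rw [AlgEquiv.mul_apply, h, h, Complex.conj_conj]
  rfl

theorem comp_eq_of_mk_eq {τ τ' : Qb →+* ℂ} {c : GQ} (h : Cj τ c) (hc : c ∈ K.fixingSubgroup)
    (hm : InfinitePlace.mk (τ.comp (algebraMap K Qb)) =
      InfinitePlace.mk (τ'.comp (algebraMap K Qb))) :
    τ.comp (algebraMap K Qb) = τ'.comp (algebraMap K Qb) := by
  rcases InfinitePlace.mk_eq_iff.1 hm with h1 | h1
  · exact h1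
  · rw [← h1]
    ext x
    exact (h.real hc x).symm

/-- sign of the quadratic character -/
theorem quad_sign {τ : Qb →+* ℂ} {c : GQ} (h : Cj τ c) (hc : c ∈ K.fixingSubgroup) {s : Qb} {a : K}
    (hs : s ^ 2 = (a : Qb)) :
    (0 < (τ (a : Qb)).re → c s = s) ∧ ((τ (a : Qb)).re < 0 → c s = - s) := by
  have hre := h.real hc a
  have h2 : (τ s) ^ 2 = τ (a : Qb) := by rw [← map_pow, hs]
  have h3 : ((τ s) ^ 2).im = 0 := by rw [h2]; exact Complex.conj_eq_iff_im.1 hre
  have h4 : (τ (a : Qb)).re = (τ s).re ^ 2 - (τ s).im ^ 2 := by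
    rw [← h2, sq, Complex.mul_re]; ring
  have h5 : (τ s).re * (τ s).im = 0 := by
    rw [sq, Complex.mul_im] at h3
    linarith
  constructor
  · intro hpos
    apply τ.injective
    rw [h s, Complex.conj_eq_iff_im]
    rcases mul_eq_zero.1 h5 with h6 | h6
    · rw [h6] at h4
      nlinarith [sq_nonneg (τ s).im]
    · exact h6
  · intro hneg
    apply τ.injective
    rw [h s, map_neg]
    rcases mul_eq_zero.1 h5 with h6 | h6
    · apply Complex.ext
      · rw [Complex.conj_re, Complex.neg_re, h6, neg_zero]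
      · rw [Complex.conj_im, Complex.neg_im]
    · rw [h6] at h4
      nlinarith [sq_nonneg (τ s).re]

end Pool.Agent.TH965.St
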