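import Pool.Agent.TH965.St.Fin2

open NumberField

namespace Pool.Agent.TH965.St

variable {K : IntermediateField ℚ Qb}

theorem sq_one_cases {u : ℂˣ} (h : u ^ 2 = 1) : u = 1 ∨ u = -1 := by
  have h4 : (u : ℂ) * (u : ℂ) = 1 := by
    have := congrArg Units.val h
    simpa [sq] using this
  rcases mul_self_eq_one_iff.1 h4 with h5 | h5
  · left; ext; simpa using h5
  · right; ext; simpa using h5

/-- The field of a quadratic character and the corresponding identity. -/
theorem quad_field (hK : NumberField K) (θ : LinChar K) (hθ : ∀ g, θ.hom g ^ 2 = 1)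
    (hne : ∃ g, θ.hom g ≠ 1) :
    ∃ K' : IntermediateField ℚ Qb, NumberField K' ∧ ∃ h : K ≤ K',
      (∀ g : K.fixingSubgroup, (g : GQ) ∈ K'.fixingSubgroup ↔ θ.hom g = 1) ∧
      ∀ {M : Type} [CommGroup M] (A : Family M) (ψ : LinChar K),
        A.D K' (ψ.res h).fn = A.D K ψ.fn * A.D K (ψ.mul θ).fn := by
  classical
  obtain ⟨L, hL, hL2⟩ := θ.smooth
  have hKL : NumberField (K ⊔ L : IntermediateField ℚ Qb) := nf_sup hK hL
  obtain ⟨K', hK'nf, hK'fix, -⟩ := exists_field hKL (θ.hom.ker.map K.fixingSubgroup.subtype) (by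
    intro g hg
    have hgK := IntermediateField.fixingSubgroup_le le_sup_left hg
    exact ⟨⟨g, hgK⟩, hL2 _ (IntermediateField.fixingSubgroup_le le_sup_right hg), rfl⟩)
  have hK' : ∀ g : K.fixingSubgroup, (g : GQ) ∈ K'.fixingSubgroup ↔ θ.hom g = 1 := by
    intro g
    rw [hK'fix]
    constructor
    · rintro ⟨g', hg', h⟩
      have : g' = g := Subtype.ext h
      rw [← this]
      exact hg'
    · intro h
      exact ⟨g, h, rfl⟩
  have hKK' : K ≤ K' := by
    rw [fixing_le_iff, hK'fix]
    rintro g ⟨g', _, rfl⟩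
    exact g'.2
  have hsub : K'.fixingSubgroup.subgroupOf K.fixingSubgroup = θ.hom.ker := by
    rw [hK'fix]
    exact Subgroup.comap_map_eq_self_of_injective (Subgroup.subtype_injective _) _
  have hcard : Nat.card (K.fixingSubgroup ⧸ (K'.fixingSubgroup.subgroupOf K.fixingSubgroup)) = 2 := by
    rw [hsub]
    show θ.hom.ker.index = 2
    rw [Subgroup.index_ker, Nat.card_eq_two_iff]
    obtain ⟨g0, hg0⟩ := hne
    have hg1 : θ.hom g0 = -1 := (sq_one_cases (hθ g0)).resolve_left hg0
    refine ⟨⟨1, 1, map_one _⟩, ⟨-1, g0, hg1⟩, ?_, ?_⟩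
    · intro h
      have h1 := congrArg Subtype.val h
      have h2 : (1 : ℂ) = -1 := by
        have := congrArg Units.val h1
        simpa using this
      norm_num at h2
    · ext ⟨u, g, hu⟩
      simp only [Set.mem_insert_iff, Set.mem_singleton_iff, Set.mem_univ, iff_true]
      rcases sq_one_cases (hθ g) with h | h
      · left; exact Subtype.ext (hu.symm.trans h)
      · right; exact Subtype.ext (hu.symm.trans h)
  have hfin : Finite (K.fixingSubgroup ⧸ (K'.fixingSubgroup.subgroupOf K.fixingSubgroup)) :=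
    Nat.finite_of_card_ne_zero (by rw [hcard]; norm_num)
  have hind : ∀ (g : GQ), ind K K' (LinChar.one : LinChar K').fn g =
      (LinChar.one : LinChar K).fn g + θ.fn g := by
    intro g
    by_cases hg : g ∈ K.fixingSubgroup
    · have hconj : ∀ q : K.fixingSubgroup, θ.hom (q⁻¹ * ⟨g, hg⟩ * q) = θ.hom ⟨g, hg⟩ := by
        intro q
        rw [map_mul, map_mul, map_inv, mul_comm, mul_inv_cancel_left]
      have hmem : ∀ q : K.fixingSubgroup, ((q : GQ)⁻¹ * g * (q : GQ)) ∈ K'.fixingSubgroup ↔
          θ.hom ⟨g, hg⟩ = 1 := by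
        intro q
        have h1 := hK' (q⁻¹ * ⟨g, hg⟩ * q)
        rw [hconj, Subgroup.coe_mul, Subgroup.coe_mul, Subgroup.coe_inv] at h1
        exact h1
      rw [LinChar.one_fn _ hg, θ.fn_of_mem hg]
      rcases sq_one_cases (hθ ⟨g, hg⟩) with h | h
      · have key : ∀ q : K.fixingSubgroup,
            (LinChar.one : LinChar K').fn ((q : GQ)⁻¹ * g * (q : GQ)) = 1 := fun q =>
          LinChar.one_fn _ ((hmem q).2 h)
        unfold ind
        have e : (∑ᶠ q : K.fixingSubgroup ⧸ (K'.fixingSubgroup.subgroupOf K.fixingSubgroup),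
            (LinChar.one : LinChar K').fn ((q.out : GQ)⁻¹ * g * (q.out : GQ))) =
            ∑ᶠ _ : K.fixingSubgroup ⧸ (K'.fixingSubgroup.subgroupOf K.fixingSubgroup), (1 : ℂ) :=
          finsum_congr fun q => key q.out
        rw [e]
        have := Fintype.ofFinite
          (K.fixingSubgroup ⧸ (K'.fixingSubgroup.subgroupOf K.fixingSubgroup))
        rw [finsum_eq_sum_of_fintype, Finset.sum_const, Finset.card_univ,
          Fintype.card_eq_nat_card, hcard, h]
        norm_num
      · have hne1 : θ.hom ⟨g, hg⟩ ≠ 1 := by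
          rw [h]
          intro h1
          have h2 : (-1 : ℂ) = 1 := by
            have := congrArg Units.val h1
            simpa using this
          norm_num at h2
        have key : ∀ q : K.fixingSubgroup,
            (LinChar.one : LinChar K').fn ((q : GQ)⁻¹ * g * (q : GQ)) = 0 := fun q =>
          LinChar.fn_of_not_mem _ fun h' => hne1 ((hmem q).1 h')
        unfold ind
        have e : (∑ᶠ q : K.fixingSubgroup ⧸ (K'.fixingSubgroup.subgroupOf K.fixingSubgroup),
            (LinChar.one : LinChar K').fn ((q.out : GQ)⁻¹ * g * (q.out : GQ))) =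
            ∑ᶠ _ : K.fixingSubgroup ⧸ (K'.fixingSubgroup.subgroupOf K.fixingSubgroup), (0 : ℂ) :=
          finsum_congr fun q => key q.out
        rw [e, finsum_zero, h]
        simp
    · rw [ind_of_not_mem hKK' _ hg, LinChar.fn_of_not_mem _ hg, LinChar.fn_of_not_mem _ hg,
        add_zero]
  refine ⟨K', hK'nf, hKK', hK', fun A ψ => ?_⟩
  have e : ind K K' (ψ.res hKK').fn = ψ.fn + (ψ.mul θ).fn := by
    funext g
    rw [ind_res hKK', hind, Pi.add_apply, LinChar.mul_fn]
    by_cases hg : g ∈ K.fixingSubgroup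
    · rw [LinChar.one_fn _ hg]; ring
    · rw [ψ.fn_of_not_mem hg]; ring
  rw [← A.map_ind K K' hK'nf hKK', e, A.map_add K hK _ (fn_mem_virt hK ψ) _
    (fn_mem_virt hK (ψ.mul θ))]

/-- A quadratic character that is odd at every real place. -/
theorem exists_odd_quad (K : IntermediateField ℚ Qb) : ∃ ω : LinChar K, (∀ g, ω.hom g ^ 2 = 1) ∧
    ∀ c : K.fixingSubgroup, IsCC (c : GQ) → ω.hom c = -1 := by
  obtain ⟨τ0⟩ : Nonempty (Qb →+* ℂ) := ⟨(IsAlgClosed.lift (R := ℚ) (S := Qb) (M := ℂ)).toRingHom⟩
  obtain ⟨s, hs⟩ := IsAlgClosed.exists_pow_nat_eq (k := Qb) (-1) (n := 2) (by norm_num)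
  have hs0 : s ≠ 0 := by
    rintro rfl
    rw [zero_pow (by norm_num)] at hs
    norm_num at hs
  have hp2 : Fact (Nat.Prime 2) := ⟨Nat.prime_two⟩
  have hneg : ∀ g ∈ K.fixingSubgroup, g (-1 : Qb) = -1 := fun g _ => by rw [map_neg, map_one]
  have hyp : ∀ g ∈ K.fixingSubgroup, g (s ^ 2) = s ^ 2 := by
    intro g hg
    rw [hs]; exact hneg g hg
  let ω : LinChar K := kum prim_neg_one τ0 s hs0 hyp hneg 1
  have hω2 : ∀ c : K.fixingSubgroup, (c : GQ) s = -s → ω.hom c = -1 := by
    intro c hc
    ext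
    show τ0 ((c : GQ) s / s) ^ 1 = -1
    rw [hc, neg_div, div_self hs0, map_neg, map_one, pow_one]
  have hω1 : ∀ c : K.fixingSubgroup, (c : GQ) s = s → ω.hom c = 1 := by
    intro c hc
    ext
    show τ0 ((c : GQ) s / s) ^ 1 = 1
    rw [hc, div_self hs0, map_one, one_pow]
  refine ⟨ω, fun g => ?_, fun c hc => ?_⟩
  · have h1 : ((g : GQ) s) ^ 2 = s ^ 2 := by rw [← map_pow, hyp g g.2]
    rcases sq_eq_sq_iff_eq_or_eq_neg.1 h1 with h | h
    · rw [hω1 g h, one_pow]
    · rw [hω2 g h]; simp
  · obtain ⟨j, hj⟩ := hc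
    apply hω2
    refine (quad_sign' hj (hneg c c.2) hs).2 ?_
    rw [map_neg, map_one, Complex.neg_re, Complex.one_re]
    norm_num

theorem main3 {M : Type} [CommGroup M] (hM : ∀ x : M, x * x = 1 → x = 1) (A : Family M) (N : ℕ) :
    (∀ K : IntermediateField ℚ Qb, NumberField K → ∀ f ∈ Virt K, A.D K f = 1) ↔
    (∀ (K : IntermediateField ℚ Qb) [NumberField K], N ≤ InfinitePlace.nrComplexPlaces K →
      ∀ ψ : LinChar K, (IsTotallyComplex K ∨ ∀ g, ψ.hom g = 1) → A.D K ψ.fn = 1) := by
  constructor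
  · intro H K hK _ ψ _
    exact H K hK _ (fn_mem_virt hK ψ)
  · intro H
    have HT : ∀ (K : IntermediateField ℚ Qb) [NumberField K],
        N ≤ InfinitePlace.nrComplexPlaces K → (∀ c ∈ K.fixingSubgroup, ¬ IsCC c) →
        ∀ ψ : LinChar K, A.D K ψ.fn = 1 := by
      intro K hK hN hc ψ
      exact H K hN ψ (Or.inl (totallyComplex_of_no_cc hc))
    -- twisting by a quadratic character odd at all real places
    have HW : ∀ (K : IntermediateField ℚ Qb) [NumberField K],
        N ≤ InfinitePlace.nrComplexPlaces K → ∀ χ ω : LinChar K, (∀ g, ω.hom g ^ 2 = 1) →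
        (∀ c : K.fixingSubgroup, IsCC (c : GQ) → ω.hom c = -1) →
        A.D K χ.fn * A.D K (χ.mul ω).fn = 1 := by
      intro K hK hN χ ω hω hωc
      by_cases hc : ∀ c ∈ K.fixingSubgroup, ¬ IsCC c
      · rw [HT K hN hc, HT K hN hc, mul_one]
      · push Not at hc
        obtain ⟨c, hcK, hcc⟩ := hc
        have hne1 : (-1 : ℂˣ) ≠ 1 := by
          intro h
          have h2 : (-1 : ℂ) = 1 := by
            have := congrArg Units.val h
            simpa using this
          norm_num at h2
        obtain ⟨K', hK', h, hfix, hD⟩ := quad_field hK ω hω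
          ⟨⟨c, hcK⟩, by rw [hωc ⟨c, hcK⟩ hcc]; exact hne1⟩
        rw [← hD A χ]
        refine HT K' (hN.trans (r2_mono h)) (fun c' hc' hcc' => ?_) _
        have hc'K := IntermediateField.fixingSubgroup_le h hc'
        have h1 := (hfix ⟨c', hc'K⟩).1 hc'
        rw [hωc ⟨c', hc'K⟩ hcc'] at h1
        exact hne1 h1
    have HP : ∀ a : ℕ, ∀ (K : IntermediateField ℚ Qb) [NumberField K],
        N ≤ InfinitePlace.nrComplexPlaces K → ∀ ψ : LinChar K,
        (∀ g, ψ.hom g ^ (2 ^ a) = 1) → A.D K ψ.fn = 1 := by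
      intro a
      induction a with
      | zero =>
        intro K hK hN ψ ha
        exact H K hN ψ (Or.inr fun g => by have := ha g; rwa [pow_zero, pow_one] at this)
      | succ a ih =>
        intro K hK hN ψ ha
        have hθ : ∀ g, (ψ.pow (2 ^ a)).hom g ^ 2 = 1 := by
          intro g
          show (ψ.hom g ^ (2 ^ a)) ^ 2 = 1
          rw [← pow_mul, ← pow_succ, ha]
        by_cases hne : ∃ g, (ψ.pow (2 ^ a)).hom g ≠ 1
        swap
        · push Not at hne
          exact ih K hN ψ hne
        obtain ⟨K', hK', h, hfix, hD⟩ := quad_field hK (ψ.pow (2 ^ a)) hθ hne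
        have hN' := hN.trans (r2_mono h)
        rcases Nat.eq_zero_or_pos a with rfl | hapos
        · -- quadratic characters
          have h1 := hD A LinChar.one
          have h2 : A.D K' ((LinChar.one : LinChar K).res h).fn = 1 :=
            ih K' hN' _ (fun g => one_pow _)
          have h3 : A.D K (LinChar.one : LinChar K).fn = 1 := ih K hN _ (fun g => one_pow _)
          rw [h2, h3, one_mul] at h1
          have h4 : ((LinChar.one : LinChar K).mul (ψ.pow (2 ^ 0))).fn = ψ.fn := by
            funext g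
            by_cases hg : g ∈ K.fixingSubgroup
            · rw [LinChar.fn_of_mem _ hg, LinChar.fn_of_mem _ hg]
              show ((1 * ψ.hom ⟨g, hg⟩ ^ (2 ^ 0) : ℂˣ) : ℂ) = _
              rw [pow_zero, pow_one, one_mul]
            · rw [LinChar.fn_of_not_mem _ hg, LinChar.fn_of_not_mem _ hg]
          rw [h4] at h1
          exact h1.symm
        · -- order divisible by 4
          obtain ⟨ω, hω, hωc⟩ := exists_odd_quad K
          have h1 : A.D K ψ.fn * A.D K (ψ.mul (ψ.pow (2 ^ a))).fn = 1 := by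
            rw [← hD A ψ]
            exact ih K' hN' _ (fun g => (hfix _).1 g.2)
          have h2 := HW K hN ψ (ω.mul (ψ.pow (2 ^ a))) (by
              intro g
              show (ω.hom g * (ψ.pow (2 ^ a)).hom g) ^ 2 = 1
              rw [mul_pow, hω, hθ, one_mul]) (by
              intro c hc
              show ω.hom c * ψ.hom c ^ (2 ^ a) = -1
              obtain ⟨b, rfl⟩ := Nat.exists_eq_succ_of_ne_zero hapos.ne'
              obtain ⟨j, hj⟩ := hc
              have h3 : ψ.hom c ^ 2 = 1 := by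
                rw [sq, ← map_mul]
                have : c * c = 1 := Subtype.ext (Cj.sq hj)
                rw [this, map_one]
              rw [hωc c ⟨j, hj⟩, pow_succ', pow_mul, h3, one_pow, mul_one])
          have h3 := HW K hN (ψ.mul (ψ.pow (2 ^ a))) ω hω hωc
          have h4 : (ψ.mul (ω.mul (ψ.pow (2 ^ a)))).fn = ((ψ.mul (ψ.pow (2 ^ a))).mul ω).fn := by
            funext g
            rw [LinChar.mul_fn, LinChar.mul_fn, LinChar.mul_fn, LinChar.mul_fn]; ring
          rw [h4] at h2
          apply hM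
          have e1 : A.D K ψ.fn = A.D K (ψ.mul (ψ.pow (2 ^ a))).fn := by
            have := h2.trans h3.symm
            exact mul_right_cancel this
          rw [← e1] at h1
          exact h1
    exact A.all_virt N (fun K _ hN φ => A.all_linear N HT
      (fun K _ hN ψ ⟨a, ha⟩ => HP a K hN ψ ha) K hN φ)

end Pool.Agent.TH965.St
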